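import Pool.Agent.ProjBody.Dist

/-!
The projection body of the cube is a cube.
-/

open MeasureTheory Module Set
open scoped Pointwise

namespace Pool.Agent.ProjBody
variable {n : ℕ}

/-- A box in Euclidean space. -/
def box (a b : Fin n → ℝ) : Set (E n) := {x | ∀ i, x i ∈ Icc (a i) (b i)}

theorem volume_box (a b : Fin n → ℝ) :
    volume (box a b) = ∏ i, ENNReal.ofReal (b i - a i) := by
  have h1 : box a b = (WithLp.ofLp : E n → (Fin n → ℝ)) ⁻¹' (Icc a b) := by
    ext x
    simp only [box, mem_ofPred_eq, mem_preimage, mem_Icc, Pi.le_def]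
    exact forall_and
  rw [h1, (PiLp.volume_preserving_ofLp (Fin n)).measure_preimage
    measurableSet_Icc.nullMeasurableSet, Real.volume_Icc_pi]

theorem Bd_l1 : Bd (l1 : E n → ℝ) = box (fun _ => -1) (fun _ => 1) := by
  ext x
  constructor
  · intro hx i
    have h1 := hx (EuclideanSpace.single i 1)
    have h2 := hx (EuclideanSpace.single i (-1))
    have h3 : l1 (EuclideanSpace.single i (1 : ℝ)) = 1 := by
      simp [l1, PiLp.single_apply, apply_ite abs]
    have h4 : l1 (EuclideanSpace.single i (-1 : ℝ)) = 1 := by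
      simp [l1, PiLp.single_apply, apply_ite abs]
    rw [EuclideanSpace.inner_single_right, h3] at h1
    rw [EuclideanSpace.inner_single_right, h4] at h2
    simp at h1 h2
    exact ⟨by linarith, h1⟩
  · intro hx u
    rw [PiLp.inner_apply]
    apply Finset.sum_le_sum
    intro i _
    have h1 : |x i| ≤ 1 := abs_le.2 (hx i)
    calc inner ℝ (x i) (u i) = u i * x i := by simp
      _ ≤ |u i * x i| := le_abs_self _
      _ = |u i| * |x i| := abs_mul _ _
      _ ≤ |u i| * 1 := by gcongr
      _ = |u i| := mul_one _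

theorem Nm.sum_le {a b : ℝ} {h : E n → ℝ} (hh : Nm a b h) {ι : Type*} (s : Finset ι)
    (v : ι → E n) : h (∑ i ∈ s, v i) ≤ ∑ i ∈ s, h (v i) := by
  classical
  induction s using Finset.induction_on with
  | empty => simp [hh.zero]
  | insert a s ha ih =>
    rw [Finset.sum_insert ha, Finset.sum_insert ha]
    exact (hh.add _ _).trans (by gcongr)

theorem sw_cube_single [NeZero n] (i : Fin n) :
    sw (box (fun _ : Fin n => -1) (fun _ => 1)) (EuclideanSpace.single i 1) ≤ 2 ^ (n - 1) := by
  have hn : n = (n - 1) + 1 := (Nat.succ_pred_eq_of_pos (NeZero.pos n)).symm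
  have h1 : box (fun _ : Fin n => -1) (fun _ => 1) + segment ℝ 0 (EuclideanSpace.single i 1) ⊆
      box (fun _ : Fin n => -1) (Function.update (fun _ => 1) i 2) := by
    rintro _ ⟨x, hx, z, hz, rfl⟩ j
    rw [segment_eq_image] at hz
    obtain ⟨t, ht, rfl⟩ := hz
    have hxj := hx j
    simp only [smul_zero, zero_add, PiLp.add_apply, PiLp.smul_apply, smul_eq_mul]
    rcases eq_or_ne j i with rfl | hij
    · simp only [PiLp.single_apply, if_true, Function.update_self]
      constructor <;> linarith [hxj.1, hxj.2, ht.1, ht.2]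
    · simp only [PiLp.single_apply, if_neg hij, Function.update_of_ne hij]
      constructor <;> linarith [hxj.1, hxj.2]
  have h2 : (volume (box (fun _ : Fin n => -1) (Function.update (fun _ => 1) i 2))).toReal =
      3 * 2 ^ (n - 1) := by
    rw [volume_box, ENNReal.toReal_prod]
    have : ∀ j, (ENNReal.ofReal (Function.update (fun _ : Fin n => (1 : ℝ)) i 2 j - -1)).toReal =
        Function.update (fun _ : Fin n => (2 : ℝ)) i 3 j := by
      intro j
      rcases eq_or_ne j i with rfl | hij
      · simp only [Function.update_self]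
        rw [ENNReal.toReal_ofReal] <;> norm_num
      · simp only [Function.update_of_ne hij]
        rw [ENNReal.toReal_ofReal] <;> norm_num
    simp_rw [this]
    rw [Finset.prod_update_of_mem (Finset.mem_univ i)]
    simp [Finset.card_sdiff]
  have h3 : (volume (box (fun _ : Fin n => -1) (fun _ => 1))).toReal = 2 * 2 ^ (n - 1) := by
    rw [volume_box, ENNReal.toReal_prod]
    have : (ENNReal.ofReal ((1 : ℝ) - -1)).toReal = 2 := by
      rw [ENNReal.toReal_ofReal] <;> norm_num
    simp only [this, Finset.prod_const, Finset.card_univ, Fintype.card_fin]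
    conv_lhs => rw [hn]
    ring
  have h4 : volume (box (fun _ : Fin n => -1) (Function.update (fun _ => 1) i 2)) ≠ ⊤ := by
    rw [volume_box]
    exact ENNReal.prod_ne_top fun _ _ => ENNReal.ofReal_ne_top
  have h5 := ENNReal.toReal_mono h4 (measure_mono h1)
  unfold sw
  rw [h2] at h5
  rw [h3]
  linarith

theorem sw_cube_lower [NeZero n] (v : E n) :
    2 ^ n * (1 - Real.exp (-(l1 v / 2))) ≤ sw (box (fun _ : Fin n => -1) (fun _ => 1)) v := by
  set Q := box (fun _ : Fin n => -1) (fun _ => 1) with hQ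
  have hQc : IsCompact Q := by
    rw [hQ, ← Bd_l1]
    exact Bd_compact one_pos nm_l1
  have h1 : Q ∪ (v +ᵥ Q) ⊆ Q + segment ℝ 0 v := by
    rintro x (hx | ⟨y, hy, rfl⟩)
    · exact ⟨x, hx, 0, left_mem_segment _ _ _, add_zero _⟩
    · exact ⟨y, hy, v, right_mem_segment _ _ _, add_comm _ _⟩
  have hvQ : MeasurableSet (v +ᵥ Q) := (hQc.vadd v).measurableSet
  have h2 : volume (Q ∪ (v +ᵥ Q)) + volume (Q ∩ (v +ᵥ Q)) = volume Q + volume Q := by
    rw [measure_union_add_inter _ hvQ, measure_vadd]
  have h3 : Q ∩ (v +ᵥ Q) ⊆ box (fun i => max (-1) (-1 + v i)) (fun i => min 1 (1 + v i)) := by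
    rintro _ ⟨hx, ⟨y, hy, rfl⟩⟩ i
    have h4 := hx i
    have h5 := hy i
    simp only [vadd_eq_add, PiLp.add_apply] at h4 ⊢
    constructor
    · apply max_le h4.1; linarith [h5.1]
    · apply le_min h4.2; linarith [h5.2]
  have h4 : (volume (Q ∩ (v +ᵥ Q))).toReal ≤ 2 ^ n * Real.exp (-(l1 v / 2)) := by
    have hne : volume (box (fun i => max (-1) (-1 + v i)) (fun i => min 1 (1 + v i))) ≠ ⊤ := by
      rw [volume_box]
      exact ENNReal.prod_ne_top fun _ _ => ENNReal.ofReal_ne_top
    refine (ENNReal.toReal_mono hne (measure_mono h3)).trans ?_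
    rw [volume_box, ENNReal.toReal_prod]
    have h5 : ∀ i, (ENNReal.ofReal (min 1 (1 + v i) - max (-1) (-1 + v i))).toReal ≤
        2 * Real.exp (-(|v i| / 2)) := by
      intro i
      have h6 : min 1 (1 + v i) - max (-1) (-1 + v i) = 2 - |v i| := by
        rcases le_total 0 (v i) with h | h
        · rw [abs_of_nonneg h, min_eq_left (by linarith), max_eq_right (by linarith)]; ring
        · rw [abs_of_nonpos h, min_eq_right (by linarith), max_eq_left (by linarith)]; ring
      rw [h6]
      have h7 := Real.add_one_le_exp (-(|v i| / 2))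
      apply ENNReal.toReal_le_of_le_ofReal (by positivity)
      apply ENNReal.ofReal_le_ofReal
      linarith
    calc ∏ i, (ENNReal.ofReal (min 1 (1 + v i) - max (-1) (-1 + v i))).toReal
        ≤ ∏ i, 2 * Real.exp (-(|v i| / 2)) :=
          Finset.prod_le_prod (fun i _ => ENNReal.toReal_nonneg) (fun i _ => h5 i)
      _ = 2 ^ n * Real.exp (-(l1 v / 2)) := by
          rw [Finset.prod_mul_distrib, ← Real.exp_sum]
          simp [l1, Finset.sum_div]
  have h5 : (volume Q).toReal = 2 ^ n := by
    rw [hQ, volume_box, ENNReal.toReal_prod]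
    have : (ENNReal.ofReal ((1 : ℝ) - -1)).toReal = 2 := by
      rw [ENNReal.toReal_ofReal] <;> norm_num
    simp only [this, Finset.prod_const, Finset.card_univ, Fintype.card_fin]
  have hQt : volume Q ≠ ⊤ := hQc.measure_lt_top.ne
  have hUt : volume (Q ∪ (v +ᵥ Q)) ≠ ⊤ := (hQc.union (hQc.vadd v)).measure_lt_top.ne
  have hIt : volume (Q ∩ (v +ᵥ Q)) ≠ ⊤ := ne_top_of_le_ne_top hQt (measure_mono inter_subset_left)
  have h6 : (volume (Q ∪ (v +ᵥ Q))).toReal + (volume (Q ∩ (v +ᵥ Q))).toReal =
      2 ^ n + 2 ^ n := by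
    rw [← ENNReal.toReal_add hUt hIt, h2, ENNReal.toReal_add hQt hQt, h5]
  have h7 : (volume (Q ∪ (v +ᵥ Q))).toReal ≤ (volume (Q + segment ℝ 0 v)).toReal :=
    ENNReal.toReal_mono (hQc.add (isCompact_seg v)).measure_lt_top.ne (measure_mono h1)
  unfold sw
  rw [h5]
  nlinarith

theorem P_l1 [NeZero n] (u : E n) : P (l1 : E n → ℝ) u = 2 ^ (n - 1) * l1 u := by
  have hP := P_Nm one_pos (nm_l1 (n := n))
  apply le_antisymm
  · have h1 : u = ∑ i, u i • (EuclideanSpace.single i (1 : ℝ)) := by
      ext j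
      simp [Finset.sum_apply, Pi.single_apply]
    calc P l1 u = P l1 (∑ i, u i • (EuclideanSpace.single i (1 : ℝ))) := by rw [← h1]
      _ ≤ ∑ i, P l1 (u i • (EuclideanSpace.single i (1 : ℝ))) := hP.sum_le _ _
      _ ≤ ∑ i, |u i| * 2 ^ (n - 1) := by
        apply Finset.sum_le_sum
        intro i _
        rw [hP.smul]
        apply mul_le_mul_of_nonneg_left _ (abs_nonneg _)
        unfold P
        rw [Bd_l1]
        exact sw_cube_single i
      _ = 2 ^ (n - 1) * l1 u := by
        unfold l1
        rw [Finset.mul_sum]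
        exact Finset.sum_congr rfl fun i _ => mul_comm _ _
  · have hn : n = (n - 1) + 1 := (Nat.succ_pred_eq_of_pos (NeZero.pos n)).symm
    have hs0 : 0 ≤ l1 u := Finset.sum_nonneg fun i _ => abs_nonneg _
    rcases eq_or_lt_of_le hs0 with h0 | h0
    · rw [← h0, mul_zero]
      exact le_trans (by have := kap_pos n; positivity) (hP.lo u)
    have key : ∀ ε : ℝ, 0 < ε → ε * (l1 u / 2) ≤ 1 →
        2 ^ (n - 1) * l1 u * (1 - ε * (l1 u / 2)) ≤ P l1 u := by
      intro ε hε hε1
      have h2 := sw_cube_lower (ε • u)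
      rw [← Bd_l1] at h2
      change _ ≤ P l1 (ε • u) at h2
      rw [hP.smul, nm_l1.smul, abs_of_pos hε] at h2
      set x := ε * (l1 u / 2) with hx
      have hx0 : 0 < x := by positivity
      have h3 : ε * l1 u / 2 = x := by rw [hx]; ring
      rw [h3] at h2
      have h4 := Real.abs_exp_sub_one_sub_id_le (x := -x) (by rw [abs_neg, abs_of_pos hx0]; exact hε1)
      have h5 := (abs_le.1 h4).2
      have h6 : x - x ^ 2 ≤ 1 - Real.exp (-x) := by nlinarith
      have h7 : (2 : ℝ) ^ n * (x - x ^ 2) ≤ ε * P l1 u :=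
        le_trans (mul_le_mul_of_nonneg_left h6 (by positivity)) h2
      have h8 : (2 : ℝ) ^ n = 2 * 2 ^ (n - 1) := by
        conv_lhs => rw [hn]
        ring
      have h9 : (2 : ℝ) ^ n * (x - x ^ 2) = ε * (2 ^ (n - 1) * l1 u * (1 - x)) := by
        rw [h8, hx]; ring
      rw [h9] at h7
      exact le_of_mul_le_mul_left h7 hε
    have hlim : Filter.Tendsto (fun ε : ℝ => 2 ^ (n - 1) * l1 u * (1 - ε * (l1 u / 2)))
        (nhdsWithin 0 (Ioi 0)) (nhds (2 ^ (n - 1) * l1 u)) := by
      have hcont : Continuous (fun ε : ℝ => 2 ^ (n - 1) * l1 u * (1 - ε * (l1 u / 2))) := by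
        fun_prop
      have := hcont.tendsto 0
      simp only [zero_mul, sub_zero, mul_one] at this
      exact this.mono_left nhdsWithin_le_nhds
    apply le_of_tendsto hlim
    have hev : ∀ᶠ ε : ℝ in nhdsWithin 0 (Ioi 0), ε * (l1 u / 2) < 1 := by
      have hcont : Continuous (fun ε : ℝ => ε * (l1 u / 2)) := by fun_prop
      have := hcont.tendsto 0
      simp only [zero_mul] at this
      exact (this.mono_left nhdsWithin_le_nhds).eventually_lt_const one_pos
    filter_upwards [self_mem_nhdsWithin, hev] with ε hε hε1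
    exact key ε hε hε1.le

theorem Pit_norm [NeZero n] (m : ℕ) : ∃ c : ℝ, 0 < c ∧
    (P^[m] (fun u : E n => ‖u‖)) = fun u => c * ‖u‖ := by
  induction m with
  | zero => exact ⟨1, one_pos, by simp⟩
  | succ m ih =>
    obtain ⟨c, hc, h⟩ := ih
    refine ⟨c ^ (n - 1) * kap n, mul_pos (pow_pos hc _) (kap_pos n), ?_⟩
    rw [Function.iterate_succ_apply', h]
    funext u
    rw [P_scale one_pos nm_norm hc, P_norm]
    ring

theorem Pit_l1 [NeZero n] (m : ℕ) : ∃ c : ℝ, 0 < c ∧
    (P^[m] (l1 : E n → ℝ)) = fun u => c * l1 u := by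
  induction m with
  | zero => exact ⟨1, one_pos, by simp⟩
  | succ m ih =>
    obtain ⟨c, hc, h⟩ := ih
    refine ⟨c ^ (n - 1) * 2 ^ (n - 1), by positivity, ?_⟩
    rw [Function.iterate_succ_apply', h]
    funext u
    rw [P_scale one_pos nm_l1 hc, P_l1]
    ring

end Pool.Agent.ProjBody
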