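import Pool.Agent.ProjBody.Pre

/-!
Existence of infinite backward orbits of the projection body operator through bodies at a
prescribed distance from the ball.
-/

open MeasureTheory Module Set
open scoped Pointwise

namespace Pool.Agent.ProjBody
variable {n : ℕ} {a b : ℝ} {h h' : E n → ℝ}

theorem Pit_bounds [NeZero n] (m : ℕ) (hN : IsN h) (hN' : IsN h') {c C : ℝ} (hc : 0 < c)
    (hC : 0 < C) (h1 : ∀ u, c * h u ≤ h' u) (h2 : ∀ u, h' u ≤ C * h u) :
    (∀ u, c ^ ((n - 1) ^ m) * P^[m] h u ≤ P^[m] h' u) ∧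
      (∀ u, P^[m] h' u ≤ C ^ ((n - 1) ^ m) * P^[m] h u) := by
  induction m with
  | zero => simpa using ⟨h1, h2⟩
  | succ m ih =>
    obtain ⟨a, b, ha, hA⟩ := hN.Pit m
    obtain ⟨a', b', ha', hA'⟩ := hN'.Pit m
    rw [Function.iterate_succ_apply', Function.iterate_succ_apply']
    constructor
    · intro u
      have e := P_mono (by positivity) (hA.scale (pow_pos hc ((n - 1) ^ m))) ha' hA' ih.1 u
      rw [P_scale ha hA (pow_pos hc _), ← pow_mul, ← pow_succ] at e
      exact e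
    · intro u
      have e := P_mono ha' hA' (by positivity) (hA.scale (pow_pos hC ((n - 1) ^ m))) ih.2 u
      rw [P_scale ha hA (pow_pos hC _), ← pow_mul, ← pow_succ] at e
      exact e

/-- The path of norms from the Euclidean norm to the `ℓ¹` norm. -/
noncomputable def hp (t : ℝ) (u : E n) : ℝ := (1 - t) * ‖u‖ + t * l1 u

theorem nm_hp {t : ℝ} (ht : t ∈ Icc (0 : ℝ) 1) : Nm (1 : ℝ) (Real.sqrt n) (hp t : E n → ℝ) where
  add u v := by
    unfold hp
    have e1 := norm_add_le u v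
    have e2 := nm_l1.add u v
    nlinarith [ht.1, ht.2]
  smul c u := by
    unfold hp
    rw [norm_smul, nm_l1.smul, Real.norm_eq_abs]; ring
  lo u := by
    unfold hp
    have := norm_le_l1 u
    nlinarith [ht.1, ht.2]
  hi u := by
    unfold hp
    have e1 := norm_le_l1 u
    have e2 := l1_le u
    nlinarith [ht.1, ht.2]

theorem isN_hp {t : ℝ} (ht : t ∈ Icc (0 : ℝ) 1) : IsN (hp t : E n → ℝ) := ⟨_, _, one_pos, nm_hp ht⟩

theorem hp_close {s t : ℝ} (ht : t ∈ Icc (0 : ℝ) 1) (u : E n) :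
    (1 - Real.sqrt n * |s - t|) * hp t u ≤ hp s u ∧
      hp s u ≤ (1 + Real.sqrt n * |s - t|) * hp t u := by
  have e1 := norm_le_l1 u
  have e2 := l1_le u
  have e3 : ‖u‖ ≤ hp t u := by have := (nm_hp ht).lo u; rwa [one_mul] at this
  have e4 : hp s u - hp t u = (s - t) * (l1 u - ‖u‖) := by unfold hp; ring
  have hs0 : 0 ≤ Real.sqrt n := Real.sqrt_nonneg _
  have e5 : |hp s u - hp t u| ≤ Real.sqrt n * |s - t| * hp t u := by
    rw [e4, abs_mul, abs_of_nonneg (by linarith : 0 ≤ l1 u - ‖u‖)]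
    calc |s - t| * (l1 u - ‖u‖) ≤ |s - t| * (Real.sqrt n * ‖u‖) := by
          gcongr; linarith [norm_nonneg u]
      _ ≤ |s - t| * (Real.sqrt n * hp t u) := by gcongr
      _ = _ := by ring
  have := abs_le.1 e5
  constructor <;> linarith

theorem DF_path_le [NeZero n] (m : ℕ) {s t : ℝ} (hs : s ∈ Icc (0 : ℝ) 1) (ht : t ∈ Icc (0 : ℝ) 1)
    (hst : Real.sqrt n * |s - t| < 1) :
    DF (P^[m] (hp s : E n → ℝ)) ≤
      (1 + Real.sqrt n * |s - t|) ^ ((n - 1) ^ m) / (1 - Real.sqrt n * |s - t|) ^ ((n - 1) ^ m) *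
        DF (P^[m] (hp t : E n → ℝ)) := by
  have hs0 : 0 ≤ Real.sqrt n := Real.sqrt_nonneg _
  have h0 : 0 ≤ Real.sqrt n * |s - t| := by positivity
  obtain ⟨e1, e2⟩ := Pit_bounds m (isN_hp (n := n) ht) (isN_hp hs) (by linarith : 0 < 1 - Real.sqrt n * |s - t|)
    (by linarith : 0 < 1 + Real.sqrt n * |s - t|) (fun u => (hp_close ht u).1)
    (fun u => (hp_close ht u).2)
  exact DF_le_mul ((isN_hp ht).Pit m) (pow_pos (by linarith) _) e1 e2

theorem DF_path_continuous [NeZero n] (m : ℕ) :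
    ContinuousOn (fun t : ℝ => DF (P^[m] (hp t : E n → ℝ))) (Icc 0 1) := by
  intro t ht
  set N := (n - 1) ^ m
  set f := fun t : ℝ => DF (P^[m] (hp t : E n → ℝ)) with hf
  have hδ : Filter.Tendsto (fun s : ℝ => Real.sqrt n * |s - t|) (nhdsWithin t (Icc 0 1))
      (nhds 0) := by
    have hc : Continuous (fun s : ℝ => Real.sqrt n * |s - t|) := by fun_prop
    have := hc.tendsto t
    simp only [sub_self, abs_zero, mul_zero] at this
    exact this.mono_left nhdsWithin_le_nhds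
  have hev : ∀ᶠ s in nhdsWithin t (Icc 0 1), Real.sqrt n * |s - t| < 1 :=
    hδ.eventually_lt_const one_pos
  have hup : Filter.Tendsto (fun s : ℝ => (1 + Real.sqrt n * |s - t|) ^ N /
      (1 - Real.sqrt n * |s - t|) ^ N * f t) (nhdsWithin t (Icc 0 1)) (nhds (f t)) := by
    have := (((hδ.const_add 1).pow N).div ((hδ.const_sub 1).pow N) (by simp)).mul_const (f t)
    simpa using this
  have hlo : Filter.Tendsto (fun s : ℝ => (1 - Real.sqrt n * |s - t|) ^ N /
      (1 + Real.sqrt n * |s - t|) ^ N * f t) (nhdsWithin t (Icc 0 1)) (nhds (f t)) := by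
    have := (((hδ.const_sub 1).pow N).div ((hδ.const_add 1).pow N) (by simp)).mul_const (f t)
    simpa using this
  apply tendsto_of_tendsto_of_tendsto_of_le_of_le' hlo hup
  · filter_upwards [hev, self_mem_nhdsWithin] with s hs1 hs2
    have e := DF_path_le m ht hs2 (by rw [abs_sub_comm]; exact hs1)
    rw [abs_sub_comm t s] at e
    have h0 : 0 ≤ Real.sqrt n * |s - t| := by positivity
    have p1 : 0 < (1 + Real.sqrt n * |s - t|) ^ N := by positivity
    have p2 : 0 < (1 - Real.sqrt n * |s - t|) ^ N := pow_pos (by linarith) _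
    rw [div_mul_eq_mul_div, div_le_iff₀ p1]
    rw [div_mul_eq_mul_div, le_div_iff₀ p2] at e
    calc (1 - Real.sqrt n * |s - t|) ^ N * f t = f t * (1 - Real.sqrt n * |s - t|) ^ N :=
          mul_comm _ _
      _ ≤ (1 + Real.sqrt n * |s - t|) ^ N * f s := e
      _ = _ := mul_comm _ _
  · filter_upwards [hev, self_mem_nhdsWithin] with s hs1 hs2
    exact DF_path_le m hs2 ht hs1

theorem exists_path_point [NeZero n] (m : ℕ) {r : ℝ} (h1 : 1 ≤ r) (h2 : r ≤ Real.sqrt n) :
    ∃ t ∈ Icc (0 : ℝ) 1, DF (P^[m] (hp t : E n → ℝ)) = r := by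
  have e0 : DF (P^[m] (hp 0 : E n → ℝ)) = 1 := by
    obtain ⟨c, hc, hcc⟩ := Pit_norm (n := n) m
    have : (hp 0 : E n → ℝ) = fun u => ‖u‖ := by funext u; simp [hp]
    rw [this, hcc, DF_norm hc]
  have e1 : DF (P^[m] (hp 1 : E n → ℝ)) = Real.sqrt n := by
    obtain ⟨c, hc, hcc⟩ := Pit_l1 (n := n) m
    have : (hp 1 : E n → ℝ) = l1 := by funext u; simp [hp]
    rw [this, hcc, DF_l1 hc]
  have := intermediate_value_Icc zero_le_one (DF_path_continuous (n := n) m)
  simp only [e0, e1] at this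
  obtain ⟨t, ht, htr⟩ := this ⟨h1, h2⟩
  exact ⟨t, ht, htr⟩

theorem exists_orbit [NeZero n] (hn : 2 ≤ n) {r : ℝ} (h1 : 1 ≤ r) (h2 : r ≤ Real.sqrt n) :
    ∃ M : ℕ → E n → ℝ, (∀ j, IsN (M j)) ∧ (∀ j, P (M (j + 1)) = M j) ∧ DF (M 0) = r := by
  choose t ht htr using fun m => exists_path_point (n := n) m h1 h2
  have hnear : ∀ m, NearF (P^[m] (hp (t m) : E n → ℝ)) (r + 1) := fun m =>
    near_of_DF_lt ((isN_hp (ht m)).Pit m) (by rw [htr]; linarith)
  choose T hT using hnear
  choose S hS using fun m => exchange_iter hn m (T m)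
  let g : ℕ → E n → ℝ := fun m v => hp (t m) (S m v)
  have hg : ∀ m, IsN (g m) := fun m => (isN_hp (ht m)).comp (S m)
  let A : ℕ → ℕ → E n → ℝ := fun m j => P^[m - j] (g m)
  have hAN : ∀ m j, IsN (A m j) := fun m j => (hg m).Pit _
  have hA0 : ∀ m, A m 0 = fun u => (P^[m] (hp (t m))) (T m u) := by
    intro m
    exact (hS m _ (isN_hp (ht m))).symm
  have hAP : ∀ m j, j < m → P (A m (j + 1)) = A m j := by
    intro m j hj
    show P (P^[m - (j + 1)] (g m)) = P^[m - j] (g m)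
    have e : m - j = (m - (j + 1)) + 1 := by omega
    rw [e, Function.iterate_succ_apply']
  have hA0N : ∀ m, Nm 1 (r + 1) (A m 0) := by
    intro m
    obtain ⟨a, b, ha, hh⟩ := hAN m 0
    refine ⟨hh.add, hh.smul, ?_, ?_⟩
    · intro u; rw [hA0, one_mul]; exact (hT m u).1
    · intro u; rw [hA0]; exact (hT m u).2
  have hA0D : ∀ m, DF (A m 0) = r := by
    intro m
    rw [hA0]
    rw [DF_comp (T m) (P^[m] (hp (t m)))]
    exact htr m
  have hbd : ∀ j, ∃ a b : ℝ, 0 < a ∧ ∀ m, j ≤ m → Nm a b (A m j) := by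
    intro j
    induction j with
    | zero => exact ⟨1, r + 1, one_pos, fun m _ => hA0N m⟩
    | succ j ih =>
      obtain ⟨a, b, ha, hab⟩ := ih
      have hb : 0 < b := (hab j le_rfl).b_nonneg ha
      obtain ⟨a', b', ha', hpre⟩ := preimage_bounds (n := n) hn ha hb
      refine ⟨a', b', ha', fun m hm => hpre _ (hAN _ _) ?_⟩
      rw [hAP m j hm]
      exact hab m (by omega)
  choose a b ha hab using hbd
  let l : Ultrafilter ℕ := Filter.hyperfilter ℕ
  have hev : ∀ j, ∀ᶠ m in (l : Filter ℕ), j ≤ m := fun j =>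
    (Filter.eventually_ge_atTop j).filter_mono Nat.hyperfilter_le_atTop
  have hlim : ∀ j u, ∃ x, Filter.Tendsto (fun m => A m j u) l (nhds x) := by
    intro j u
    have hmem : Icc (a j * ‖u‖) (b j * ‖u‖) ∈ l.map (fun m => A m j u) := by
      show _ ∈ (l : Filter ℕ).map (fun m => A m j u)
      rw [Filter.mem_map]
      filter_upwards [hev j] with m hm
      exact ⟨(hab j m hm).lo u, (hab j m hm).hi u⟩
    obtain ⟨x, _, hx⟩ := (isCompact_Icc (a := a j * ‖u‖) (b := b j * ‖u‖)).ultrafilter_le_nhds'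
      _ hmem
    exact ⟨x, hx⟩
  choose M hM using hlim
  have hNmM : ∀ j, Nm (a j) (b j) (M j) := fun j =>
    Nm.lim (by filter_upwards [hev j] with m hm using hab j m hm) (hM j)
  refine ⟨M, fun j => ⟨_, _, ha j, hNmM j⟩, ?_, ?_⟩
  · intro j
    funext u
    have e1 := P_lim (ha (j + 1)) (by filter_upwards [hev (j + 1)] with m hm using hab (j + 1) m hm)
      (hM (j + 1)) u
    have e2 : Filter.Tendsto (fun m => P (A m (j + 1)) u) l (nhds (M j u)) := by
      apply (hM j u).congr'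
      filter_upwards [hev (j + 1)] with m hm
      rw [hAP m j hm]
    exact tendsto_nhds_unique e1 e2
  · have hD0 : 0 < DF (M 0) := lt_of_lt_of_le one_pos (one_le_DF ⟨_, _, ha 0, hNmM 0⟩)
    have key : ∀ δ : ℝ, 0 < δ → δ < 1 → DF (M 0) ≤ (1 + δ) / (1 - δ) * r ∧
        r ≤ (1 + δ) / (1 - δ) * DF (M 0) := by
      intro δ h0 h1
      obtain ⟨m, hm⟩ := (unif_close (ha 0)
        (by filter_upwards [hev 0] with m hm using hab 0 m hm) (hNmM 0) (hM 0) h0).exists
      have hN0 : IsN (M 0) := ⟨_, _, ha 0, hNmM 0⟩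
      have hd1 : 0 < 1 - δ := by linarith
      constructor
      · have := DF_le_mul (h' := M 0) (hAN m 0) (c := (1 + δ)⁻¹) (C := (1 - δ)⁻¹) (by positivity)
          (fun u => by rw [inv_mul_le_iff₀ (by positivity)]; exact (hm u).2)
          (fun u => by rw [le_inv_mul_iff₀ hd1]; exact (hm u).1)
        rw [hA0D] at this
        have e : (1 - δ)⁻¹ / (1 + δ)⁻¹ = (1 + δ) / (1 - δ) := by field_simp
        rw [e] at this
        exact this
      · have := DF_le_mul (h' := A m 0) hN0 hd1 (fun u => (hm u).1) (fun u => (hm u).2)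
        rw [hA0D] at this
        exact this
    have hlimr : ∀ x : ℝ, Filter.Tendsto (fun δ : ℝ => (1 + δ) / (1 - δ) * x)
        (nhdsWithin 0 (Ioi 0)) (nhds x) := by
      intro x
      have hid : Filter.Tendsto (fun δ : ℝ => δ) (nhdsWithin 0 (Ioi 0)) (nhds 0) :=
        Filter.tendsto_id.mono_left nhdsWithin_le_nhds
      have := ((hid.const_add 1).div (hid.const_sub 1) (by simp)).mul_const x
      simpa using this
    have e3 : ∀ᶠ δ : ℝ in nhdsWithin 0 (Ioi 0), δ < 1 :=
      Filter.Eventually.filter_mono nhdsWithin_le_nhds (eventually_lt_nhds one_pos)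
    apply le_antisymm
    · apply ge_of_tendsto (hlimr r)
      filter_upwards [e3, self_mem_nhdsWithin] with δ hδ1 hδ0 using (key δ hδ0 hδ1).1
    · apply ge_of_tendsto (hlimr (DF (M 0)))
      filter_upwards [e3, self_mem_nhdsWithin] with δ hδ1 hδ0 using (key δ hδ0 hδ1).2

end Pool.Agent.ProjBody
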