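import Pool.Agent.ProjBody.Cube

/-!
Auerbach position, and bounds for preimages of the projection body operator.
-/

open MeasureTheory Module Set
open scoped Pointwise

namespace Pool.Agent.ProjBody
variable {n : ℕ} {a b : ℝ} {h h' : E n → ℝ}

theorem Nm.lip (hh : Nm a b h) (u v : E n) : |h u - h v| ≤ b * ‖u - v‖ := by
  rw [abs_le]
  have h1 := hh.add (u - v) v
  have h2 := hh.add (v - u) u
  rw [sub_add_cancel] at h1 h2
  have h3 := hh.hi (u - v)
  have h4 := hh.hi (v - u)
  rw [norm_sub_rev] at h4
  constructor <;> linarith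

theorem Nm.continuous (hh : Nm a b h) : Continuous h := by
  apply LipschitzWith.continuous (K := (b.toNNReal))
  apply LipschitzWith.of_dist_le_mul
  intro u v
  rw [Real.dist_eq, dist_eq_norm]
  refine (hh.lip u v).trans ?_
  gcongr
  exact Real.le_coe_toNNReal b

/-- The matrix with given columns. -/
def colM (x : Fin n → E n) : Matrix (Fin n) (Fin n) ℝ := Matrix.of fun i j => x j i

/-- The linear map of the matrix, as an equivalence. -/
noncomputable def matEquiv (A : Matrix (Fin n) (Fin n) ℝ) (hA : IsUnit A.det) :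
    E n ≃L[ℝ] E n :=
  ContinuousLinearEquiv.equivOfInverse (Matrix.toEuclideanCLM (𝕜 := ℝ) A)
    (Matrix.toEuclideanCLM (𝕜 := ℝ) A⁻¹)
    (by
      intro x
      have : Matrix.toEuclideanCLM (𝕜 := ℝ) A⁻¹ * Matrix.toEuclideanCLM (𝕜 := ℝ) A = 1 := by
        rw [← map_mul, Matrix.nonsing_inv_mul _ hA, map_one]
      exact congrArg (fun f : E n →L[ℝ] E n => f x) this)
    (by
      intro x
      have : Matrix.toEuclideanCLM (𝕜 := ℝ) A * Matrix.toEuclideanCLM (𝕜 := ℝ) A⁻¹ = 1 := by
        rw [← map_mul, Matrix.mul_nonsing_inv _ hA, map_one]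
      exact congrArg (fun f : E n →L[ℝ] E n => f x) this)

theorem matEquiv_apply (A : Matrix (Fin n) (Fin n) ℝ) (hA : IsUnit A.det) (u : E n) :
    (matEquiv A hA u).ofLp = A.mulVec u.ofLp := rfl

theorem matEquiv_symm_apply (A : Matrix (Fin n) (Fin n) ℝ) (hA : IsUnit A.det) (u : E n) :
    ((matEquiv A hA).symm u).ofLp = A⁻¹.mulVec u.ofLp := rfl

theorem near_auerbach [NeZero n] (hh : IsN h) : NearF h n := by
  obtain ⟨a, b, ha, hh⟩ := hh
  have hb := hh.b_nonneg ha
  set K : Set (E n) := {x | h x ≤ 1} with hK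
  have hKc : IsCompact K := by
    apply (isCompact_closedBall (0 : E n) (1 / a)).of_isClosed_subset
    · exact isClosed_le hh.continuous continuous_const
    · intro x hx
      rw [Metric.mem_closedBall, dist_zero_right, le_div_iff₀ ha, mul_comm]
      exact (hh.lo x).trans hx
  have hSc : IsCompact (Set.pi univ (fun _ : Fin n => K)) := isCompact_univ_pi fun _ => hKc
  have h0K : (0 : E n) ∈ K := by
    show h 0 ≤ 1
    rw [hh.zero]; norm_num
  have hcont : ContinuousOn (fun x : Fin n → E n => |(colM x).det|)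
      (Set.pi univ (fun _ : Fin n => K)) := by
    apply Continuous.continuousOn
    apply Continuous.abs
    apply Continuous.matrix_det
    unfold colM
    fun_prop
  obtain ⟨x, hxK, hmax⟩ := hSc.exists_isMaxOn ⟨fun _ => 0, fun _ _ => h0K⟩ hcont
  have hpos : 0 < |(colM x).det| := by
    have h1 : (fun j : Fin n => EuclideanSpace.single j (1 / b)) ∈
        Set.pi univ (fun _ : Fin n => K) := by
      intro j _
      show h _ ≤ 1
      refine (hh.hi _).trans ?_
      rw [PiLp.norm_single, Real.norm_eq_abs, abs_of_pos (by positivity)]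
      field_simp
      exact le_refl _
    have h2 := hmax h1
    have h3 : (colM fun j : Fin n => EuclideanSpace.single j (1 / b)).det = (1 / b) ^ n := by
      have : (colM fun j : Fin n => EuclideanSpace.single j (1 / b)) =
          Matrix.diagonal fun _ => (1 / b) := by
        ext i j
        simp only [colM, Matrix.of_apply, PiLp.single_apply, Matrix.diagonal_apply]
      rw [this, Matrix.det_diagonal]
      simp
    have h4 : |(colM fun j : Fin n => EuclideanSpace.single j (1 / b)).det| ≤
        |(colM x).det| := h2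
    rw [h3, abs_of_pos (by positivity)] at h4
    exact lt_of_lt_of_le (by positivity) h4
  set A := colM x with hA
  have hAu : IsUnit A.det := (isUnit_iff_ne_zero).2 (abs_pos.1 hpos)
  -- coefficients bounded by one
  have hcoef : ∀ y : E n, h y ≤ 1 → ∀ j, |(A⁻¹.mulVec y.ofLp) j| ≤ 1 := by
    intro y hy j
    have h1 : Function.update x j y ∈ Set.pi univ (fun _ : Fin n => K) := by
      intro i _
      rcases eq_or_ne i j with rfl | hij
      · rw [Function.update_self]; exact hy
      · rw [Function.update_of_ne hij]; exact hxK i (mem_univ i)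
    have h2 : |(colM (Function.update x j y)).det| ≤ |A.det| := hmax h1
    have h3 : colM (Function.update x j y) = A.updateCol j y.ofLp := by
      ext i k
      simp only [colM, Matrix.of_apply, Matrix.updateCol_apply, hA]
      rcases eq_or_ne k j with rfl | hkj
      · simp
      · simp [hkj]
    rw [h3, ← Matrix.cramer_apply, Matrix.cramer_eq_adjugate_mulVec] at h2
    have h4 : A.adjugate.mulVec y.ofLp = A.det • (A⁻¹.mulVec y.ofLp) := by
      rw [Matrix.inv_def, Matrix.smul_mulVec, smul_smul, Ring.mul_inverse_cancel _ hAu, one_smul]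
    rw [h4, Pi.smul_apply, smul_eq_mul, abs_mul] at h2
    have h5 : |A.det| * |(A⁻¹.mulVec y.ofLp) j| ≤ |A.det| * 1 := by rw [mul_one]; exact h2
    exact le_of_mul_le_mul_left h5 hpos
  have hsq : 0 < Real.sqrt n := Real.sqrt_pos.2 (by exact_mod_cast NeZero.pos n)
  refine ⟨(scl (Real.sqrt n) hsq.ne').trans (matEquiv A hAu), fun u => ?_⟩
  have hTu : ((scl (Real.sqrt n) hsq.ne').trans (matEquiv A hAu)) u =
      Real.sqrt n • matEquiv A hAu u := by
    show matEquiv A hAu (Real.sqrt n • u) = _
    rw [map_smul]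
  rw [hTu, hh.smul, abs_of_pos hsq]
  have hnsq : Real.sqrt n * Real.sqrt n = n := Real.mul_self_sqrt (Nat.cast_nonneg n)
  constructor
  · have hcoord : ∀ j, |u j| ≤ h (matEquiv A hAu u) := by
      intro j
      set s := h (matEquiv A hAu u) with hs
      have hs0 : 0 ≤ s := le_trans (by positivity) (hh.lo _)
      rcases eq_or_lt_of_le hs0 with h0 | h0
      · have h1 := hh.lo (matEquiv A hAu u)
        rw [← hs, ← h0] at h1
        have h2 : ‖matEquiv A hAu u‖ ≤ 0 := by
          by_contra hcon
          push Not at hcon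
          nlinarith
        have h3 : matEquiv A hAu u = 0 := norm_le_zero_iff.1 h2
        have h4 : u = 0 := by
          rw [← ContinuousLinearEquiv.symm_apply_apply (matEquiv A hAu) u, h3, map_zero]
        rw [h4]; simpa using hs0
      · have h1 : h (s⁻¹ • matEquiv A hAu u) ≤ 1 := by
          rw [hh.smul, abs_of_pos (inv_pos.2 h0), ← hs, inv_mul_cancel₀ h0.ne']
        have h2 := hcoef _ h1 j
        have h3 : A⁻¹.mulVec (s⁻¹ • matEquiv A hAu u).ofLp = s⁻¹ • u.ofLp := by
          rw [← matEquiv_symm_apply A hAu, map_smul, ContinuousLinearEquiv.symm_apply_apply]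
          rfl
        rw [h3, Pi.smul_apply, smul_eq_mul, abs_mul, abs_of_pos (inv_pos.2 h0),
          inv_mul_le_iff₀ h0, mul_one] at h2
        exact h2
    set s := h (matEquiv A hAu u) with hs
    have hs0 : 0 ≤ s := le_trans (by positivity) (hh.lo _)
    rw [EuclideanSpace.norm_eq]
    rw [Real.sqrt_le_left (by positivity)]
    calc ∑ i, ‖u i‖ ^ 2 ≤ ∑ i : Fin n, s ^ 2 := by
          apply Finset.sum_le_sum
          intro i _
          rw [Real.norm_eq_abs]
          exact pow_le_pow_left₀ (abs_nonneg _) (hcoord i) 2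
      _ = (Real.sqrt n * s) ^ 2 := by
          rw [mul_pow, Real.sq_sqrt (Nat.cast_nonneg n)]; simp
  · have h1 : matEquiv A hAu u = ∑ j, u j • x j := by
      ext i
      rw [matEquiv_apply]
      simp only [Matrix.mulVec, dotProduct, hA, colM, Matrix.of_apply]
      simp [mul_comm]
    have h2 : h (matEquiv A hAu u) ≤ Real.sqrt n * ‖u‖ := by
      rw [h1]
      refine (hh.sum_le _ _).trans (le_trans ?_ (l1_le u))
      apply Finset.sum_le_sum
      intro j _
      rw [hh.smul]
      calc |u j| * h (x j) ≤ |u j| * 1 := by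
            gcongr
            exact hxK j (mem_univ j)
        _ = |u j| := mul_one _
    calc Real.sqrt n * h (matEquiv A hAu u) ≤ Real.sqrt n * (Real.sqrt n * ‖u‖) := by gcongr
      _ = n * ‖u‖ := by rw [← mul_assoc, hnsq]

theorem dt_le [NeZero n] (S : E n ≃L[ℝ] E n) {c : ℝ} (hc : 0 < c) (hS : ∀ v, ‖S v‖ ≤ c * ‖v‖) :
    dt S ≤ c ^ n := by
  have h1 : S '' Metric.closedBall 0 1 ⊆ c • Metric.closedBall (0 : E n) 1 := by
    rintro _ ⟨v, hv, rfl⟩
    rw [Metric.mem_closedBall, dist_zero_right] at hv
    rw [mem_smul_set_iff_inv_smul_mem₀ hc.ne', Metric.mem_closedBall, dist_zero_right, norm_smul,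
      norm_inv, Real.norm_eq_abs, abs_of_pos hc, inv_mul_le_iff₀ hc]
    calc ‖S v‖ ≤ c * ‖v‖ := hS v
      _ ≤ c * 1 := by gcongr
  have h2 := Measure.addHaar_image_linearMap (volume : Measure (E n))
      S.toLinearEquiv.toLinearMap (Metric.closedBall 0 1)
  have h3 : (S.toLinearEquiv.toLinearMap : E n → E n) '' (Metric.closedBall 0 1) =
    S '' Metric.closedBall 0 1 := rfl
  rw [h3] at h2
  have h4 : volume (c • Metric.closedBall (0 : E n) 1) =
      ENNReal.ofReal (c ^ n) * volume (Metric.closedBall (0 : E n) 1) := by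
    rw [Measure.addHaar_smul, abs_of_pos (by positivity)]
    simp
  have h5 := measure_mono (μ := (volume : Measure (E n))) h1
  rw [h2, h4] at h5
  have h6 : volume (Metric.closedBall (0 : E n) 1) ≠ 0 :=
    (Metric.measure_closedBall_pos volume 0 one_pos).ne'
  have h7 : volume (Metric.closedBall (0 : E n) 1) ≠ ⊤ :=
    (isCompact_closedBall (0 : E n) 1).measure_lt_top.ne
  rw [ENNReal.mul_le_mul_iff_left h6 h7] at h5
  exact (ENNReal.ofReal_le_ofReal_iff (by positivity)).1 h5

end Pool.Agent.ProjBody
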