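import Mathlib

/-!
Projection bodies of convex bodies in Euclidean space: the definitions used in the
statement about iterated projection bodies of every order.
-/

open MeasureTheory Module Set

namespace Pool.Agent.ProjBody

/-- Euclidean n-space. -/
abbrev E (n : ℕ) := EuclideanSpace ℝ (Fin n)

variable {n : ℕ}

/-- A convex body: a compact convex set with nonempty interior. -/
def IsConvexBody (K : Set (E n)) : Prop :=
  IsCompact K ∧ Convex ℝ K ∧ (interior K).Nonempty

/-- The support function of a set. -/
noncomputable def supportFn (K : Set (E n)) (u : E n) : ℝ :=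
  sSup ((fun x => inner ℝ x u) '' K)

/-- The orthogonal projection of `x` onto the hyperplane orthogonal to the unit vector `u`. -/
noncomputable def projHyper (u x : E n) : E n := x - (inner ℝ x u : ℝ) • u

/-- The brightness of `K` in the direction of the unit vector `u`: the `(n-1)`-dimensional volume
(Euclidean Hausdorff measure, which agrees with Lebesgue measure on `(n-1)`-dimensional
subspaces) of the orthogonal projection of `K` onto the hyperplane orthogonal to `u`. -/
noncomputable def brightness (K : Set (E n)) (u : E n) : ℝ :=
  (Measure.euclideanHausdorffMeasure (n - 1) (projHyper u '' K)).toReal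

/-- `L` is the projection body of `K`: the convex body whose support function on the unit
sphere is the brightness function of `K`. -/
def IsProjectionBody (K L : Set (E n)) : Prop :=
  IsConvexBody K ∧ IsConvexBody L ∧ ∀ u : E n, ‖u‖ = 1 → supportFn L u = brightness K u

/-- `L` is the `m`-th iterated projection body of `K`. -/
def IsIteratedProjectionBody : ℕ → Set (E n) → Set (E n) → Prop
  | 0, K, L => L = K
  | m + 1, K, L => ∃ M, IsIteratedProjectionBody m K M ∧ IsProjectionBody M L

/-- The property of the question: for every `m ≥ 1` there is a convex body `K'` whose `m`-th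
iterated projection body is `K`. -/
def OfEveryOrder (K : Set (E n)) : Prop :=
  ∀ m : ℕ, 1 ≤ m → ∃ K' : Set (E n), IsConvexBody K' ∧ IsIteratedProjectionBody m K' K

/-- Some linear image of `K` lies between the unit ball and the ball of radius `s`. -/
def BallSandwich (K : Set (E n)) (s : ℝ) : Prop :=
  ∃ T : E n ≃L[ℝ] E n, Metric.closedBall 0 1 ⊆ T '' K ∧ T '' K ⊆ Metric.closedBall 0 s

/-- The Banach-Mazur distance of a centred convex body to the Euclidean ball. -/
noncomputable def distToBall (K : Set (E n)) : ℝ := sInf {s : ℝ | BallSandwich K s}

/-- `K` is an ellipsoid: a linear image of the unit ball. -/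
def IsEllipsoid (K : Set (E n)) : Prop :=
  ∃ T : E n ≃L[ℝ] E n, K = T '' Metric.closedBall 0 1

/-- `K` is the direct sum of two sets in complementary nonzero subspaces. -/
def IsDirectSum (K : Set (E n)) : Prop :=
  ∃ V W : Submodule ℝ (E n), IsCompl V W ∧ V ≠ ⊥ ∧ W ≠ ⊥ ∧
    ∃ A B : Set (E n), A ⊆ V ∧ B ⊆ W ∧ K = {z | ∃ x ∈ A, ∃ y ∈ B, z = x + y}

end Pool.Agent.ProjBody
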