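import Pool.Agent.ProjBody.Norms

/-!
Banach-Mazur distance to the Euclidean norm, Auerbach position.
-/

open MeasureTheory Module Set
open scoped Pointwise

namespace Pool.Agent.ProjBody
variable {n : ℕ} {h h' : E n → ℝ}

/-- After a linear change of variables `h` lies between the Euclidean norm and `s` times it. -/
def NearF (h : E n → ℝ) (s : ℝ) : Prop :=
  ∃ T : E n ≃L[ℝ] E n, ∀ u, ‖u‖ ≤ h (T u) ∧ h (T u) ≤ s * ‖u‖

/-- Banach-Mazur distance to the Euclidean norm. -/
noncomputable def DF (h : E n → ℝ) : ℝ := sInf {s | NearF h s}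

theorem NearF.mono {s t : ℝ} (hs : NearF h s) (hst : s ≤ t) : NearF h t := by
  obtain ⟨T, hT⟩ := hs
  exact ⟨T, fun u => ⟨(hT u).1, (hT u).2.trans (by gcongr)⟩⟩

theorem NearF.one_le [NeZero n] {s : ℝ} (hs : NearF h s) : 1 ≤ s := by
  obtain ⟨T, hT⟩ := hs
  let e : E n := EuclideanSpace.single 0 1
  have he : ‖e‖ = 1 := by simp [e]
  have := (hT e).1.trans (hT e).2
  rw [he] at this
  linarith

theorem NearF.bdd [NeZero n] (h : E n → ℝ) : BddBelow {s | NearF h s} :=
  ⟨1, fun _ hs => hs.one_le⟩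

theorem IsN.near [NeZero n] (hh : IsN h) : ∃ s, NearF h s := by
  obtain ⟨a, b, ha, hh⟩ := hh
  refine ⟨b / a, scl a⁻¹ (inv_ne_zero ha.ne'), fun u => ?_⟩
  rw [scl_apply, hh.smul, abs_of_pos (inv_pos.2 ha)]
  constructor
  · rw [← div_eq_inv_mul, le_div_iff₀ ha, mul_comm]
    exact hh.lo u
  · rw [inv_mul_le_iff₀ ha]
    calc h u ≤ b * ‖u‖ := hh.hi u
      _ = _ := by field_simp

theorem near_of_DF_lt [NeZero n] (hh : IsN h) {s : ℝ} (hs : DF h < s) : NearF h s := by
  obtain ⟨t, ht, hts⟩ := exists_lt_of_csInf_lt hh.near hs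
  exact NearF.mono ht hts.le

theorem one_le_DF [NeZero n] (hh : IsN h) : 1 ≤ DF h :=
  le_csInf hh.near fun _ hs => hs.one_le

theorem DF_le [NeZero n] {s : ℝ} (hs : NearF h s) : DF h ≤ s := csInf_le (NearF.bdd h) hs

theorem NearF.comp {s : ℝ} (S : E n ≃L[ℝ] E n) (hs : NearF h s) :
    NearF (fun u => h (S u)) s := by
  obtain ⟨T, hT⟩ := hs
  refine ⟨T.trans S.symm, fun u => ?_⟩
  have : S ((T.trans S.symm) u) = T u := by simp
  show ‖u‖ ≤ h (S ((T.trans S.symm) u)) ∧ h (S ((T.trans S.symm) u)) ≤ s * ‖u‖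
  rw [this]
  exact hT u

theorem DF_comp (S : E n ≃L[ℝ] E n) (h : E n → ℝ) : DF (fun u => h (S u)) = DF h := by
  unfold DF
  congr 1
  ext s
  constructor
  · intro hs
    have := NearF.comp S.symm (h := fun u => h (S u)) hs
    simpa using this
  · exact NearF.comp S

theorem DF_le_mul [NeZero n] (hh : IsN h) {c C : ℝ} (hc : 0 < c)
    (h1 : ∀ u, c * h u ≤ h' u) (h2 : ∀ u, h' u ≤ C * h u) : DF h' ≤ C / c * DF h := by
  have hcC : 0 < C := by
    let e : E n := EuclideanSpace.single 0 1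
    have he : ‖e‖ = 1 := by simp [e]
    obtain ⟨a, b, ha, hN⟩ := hh
    have h3 := hN.lo e
    rw [he] at h3
    have h4 := (h1 e).trans (h2 e)
    have h5 : 0 < h e := by linarith
    have h6 : c ≤ C := le_of_mul_le_mul_right h4 h5
    linarith
  have key : ∀ s, NearF h s → DF h' ≤ C / c * s := by
    rintro s ⟨T, hT⟩
    apply DF_le
    refine ⟨(scl c⁻¹ (inv_ne_zero hc.ne')).trans T, fun u => ?_⟩
    obtain ⟨a, b, ha, hN⟩ := hh
    have h3 : ((scl c⁻¹ (inv_ne_zero hc.ne')).trans T) u = c⁻¹ • T u := by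
      show T (c⁻¹ • u) = _
      rw [map_smul]
    rw [h3]
    constructor
    · calc ‖u‖ ≤ h (T u) := (hT u).1
        _ = c * h (c⁻¹ • T u) := by
          rw [hN.smul, abs_of_pos (inv_pos.2 hc)]; field_simp
        _ ≤ h' (c⁻¹ • T u) := h1 _
    · calc h' (c⁻¹ • T u) ≤ C * h (c⁻¹ • T u) := h2 _
        _ = C / c * h (T u) := by rw [hN.smul, abs_of_pos (inv_pos.2 hc)]; field_simp
        _ ≤ C / c * (s * ‖u‖) := by gcongr; exact (hT u).2
        _ = C / c * s * ‖u‖ := by ring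
  have h7 : DF h' / (C / c) ≤ DF h := by
    apply le_csInf hh.near
    intro s hs
    rw [div_le_iff₀ (by positivity)]
    have := key s hs
    linarith
  rw [div_le_iff₀ (by positivity)] at h7
  linarith

theorem DF_norm [NeZero n] {c : ℝ} (hc : 0 < c) : DF (fun u : E n => c * ‖u‖) = 1 := by
  have hN : IsN (fun u : E n => c * ‖u‖) := ⟨_, _, by positivity, nm_norm.scale hc⟩
  apply le_antisymm _ (one_le_DF hN)
  apply DF_le
  refine ⟨scl c⁻¹ (inv_ne_zero hc.ne'), fun u => ?_⟩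
  show ‖u‖ ≤ c * ‖c⁻¹ • u‖ ∧ c * ‖c⁻¹ • u‖ ≤ 1 * ‖u‖
  rw [norm_smul, norm_inv, Real.norm_eq_abs, abs_of_pos hc]
  constructor
  · rw [← mul_assoc, mul_inv_cancel₀ hc.ne', one_mul]
  · rw [← mul_assoc, mul_inv_cancel₀ hc.ne', one_mul]

/-- The `ℓ¹` norm, the support function of the cube. -/
noncomputable def l1 (u : E n) : ℝ := ∑ i, |u i|

theorem norm_le_l1 (u : E n) : ‖u‖ ≤ l1 u := by
  rw [EuclideanSpace.norm_eq]
  unfold l1
  rw [Real.sqrt_le_left (Finset.sum_nonneg fun i _ => abs_nonneg _)]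
  rw [sq, Finset.sum_mul_sum]
  apply Finset.sum_le_sum
  intro i _
  calc ‖u i‖ ^ 2 = |u i| * |u i| := by rw [Real.norm_eq_abs, sq]
    _ ≤ ∑ j, |u i| * |u j| :=
      Finset.single_le_sum (f := fun j => |u i| * |u j|) (fun j _ => by positivity)
        (Finset.mem_univ i)

theorem l1_le (u : E n) : l1 u ≤ Real.sqrt n * ‖u‖ := by
  rw [EuclideanSpace.norm_eq, ← Real.sqrt_mul (Nat.cast_nonneg n)]
  apply Real.le_sqrt_of_sq_le
  unfold l1
  have := sq_sum_le_card_mul_sum_sq (s := Finset.univ) (f := fun i => |u i|)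
  simpa using this

theorem nm_l1 : Nm (1 : ℝ) (Real.sqrt n) (l1 : E n → ℝ) where
  add u v := by
    unfold l1
    rw [← Finset.sum_add_distrib]
    exact Finset.sum_le_sum fun i _ => abs_add_le _ _
  smul c u := by
    unfold l1
    rw [Finset.mul_sum]
    exact Finset.sum_congr rfl fun i _ => by simp [abs_mul]
  lo u := by rw [one_mul]; exact norm_le_l1 u
  hi u := l1_le u

theorem exists_signs {ι : Type*} (s : Finset ι) (r : ι → E n) :
    ∃ σ : ι → ℝ, (∀ i, |σ i| = 1) ∧ ∑ i ∈ s, ‖r i‖ ^ 2 ≤ ‖∑ i ∈ s, σ i • r i‖ ^ 2 := by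
  classical
  induction s using Finset.induction_on with
  | empty => exact ⟨fun _ => 1, by simp, by simp⟩
  | insert a s ha ih =>
    obtain ⟨σ, h1, h2⟩ := ih
    set w := ∑ i ∈ s, σ i • r i with hw
    obtain ⟨ε, hε, hε2⟩ : ∃ ε : ℝ, |ε| = 1 ∧ 0 ≤ inner ℝ (ε • r a) w := by
      rcases le_total 0 (inner ℝ (r a) w) with h | h
      · exact ⟨1, by simp, by simpa using h⟩
      · exact ⟨-1, by simp, by simpa using h⟩
    refine ⟨Function.update σ a ε, ?_, ?_⟩
    · intro i
      rcases eq_or_ne i a with rfl | hi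
      · simpa using hε
      · rw [Function.update_of_ne hi]; exact h1 i
    · rw [Finset.sum_insert ha, Finset.sum_insert ha, Function.update_self]
      have h3 : ∑ i ∈ s, Function.update σ a ε i • r i = w := by
        apply Finset.sum_congr rfl
        intro i hi
        rw [Function.update_of_ne (by rintro rfl; exact ha hi)]
      rw [h3, @norm_add_sq_real]
      have h4 : ‖ε • r a‖ ^ 2 = ‖r a‖ ^ 2 := by
        rw [norm_smul, Real.norm_eq_abs, hε, one_mul]
      rw [h4]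
      linarith

theorem sqrt_le_DF_l1 [NeZero n] {s : ℝ} (hs : NearF (l1 : E n → ℝ) s) : Real.sqrt n ≤ s := by
  have hs1 := hs.one_le
  obtain ⟨T, hT⟩ := hs
  let e : Fin n → E n := fun i => EuclideanSpace.single i 1
  let r : Fin n → E n := fun i => adj T (e i)
  have hr : ∀ i u, inner ℝ (r i) u = T u i := by
    intro i u
    show inner ℝ (adj T (e i)) u = _
    rw [adj_inner]
    simp [e, EuclideanSpace.inner_single_left]
  have hr1 : ∀ i, 1 ≤ ‖r i‖ := by
    intro i
    have h1 := (hT (T.symm (e i))).1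
    rw [ContinuousLinearEquiv.apply_symm_apply] at h1
    have h2 : l1 (e i) = 1 := by
      simp [l1, e, Finset.sum_ite_eq', PiLp.single_apply, apply_ite abs]
    rw [h2] at h1
    have h3 : inner ℝ (r i) (T.symm (e i)) = 1 := by
      rw [hr, ContinuousLinearEquiv.apply_symm_apply]
      simp [e]
    have h4 := real_inner_le_norm (r i) (T.symm (e i))
    rw [h3] at h4
    nlinarith [norm_nonneg (r i), norm_nonneg (T.symm (e i))]
  obtain ⟨σ, hσ, hσ2⟩ := exists_signs Finset.univ r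
  set w := ∑ i, σ i • r i with hw
  have h1 : ‖w‖ ^ 2 ≤ s * ‖w‖ := by
    calc ‖w‖ ^ 2 = inner ℝ w w := (real_inner_self_eq_norm_sq w).symm
      _ = ∑ i, σ i * inner ℝ (r i) w := by
        conv_lhs => rw [hw, sum_inner]
        exact Finset.sum_congr rfl fun i _ => by rw [real_inner_smul_left]
      _ ≤ ∑ i, |T w i| := by
        apply Finset.sum_le_sum
        intro i _
        rw [hr]
        calc σ i * T w i ≤ |σ i * T w i| := le_abs_self _
          _ = |T w i| := by rw [abs_mul, hσ, one_mul]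
      _ = l1 (T w) := rfl
      _ ≤ s * ‖w‖ := (hT w).2
  have h2 : (n : ℝ) ≤ ‖w‖ ^ 2 := by
    calc (n : ℝ) = ∑ i : Fin n, (1 : ℝ) := by simp
      _ ≤ ∑ i, ‖r i‖ ^ 2 := by
        apply Finset.sum_le_sum
        intro i _
        nlinarith [hr1 i]
      _ ≤ _ := hσ2
  have h3 : ‖w‖ ≤ s := by
    rcases eq_or_lt_of_le (norm_nonneg w) with h0 | h0
    · rw [← h0]; linarith
    · nlinarith
  rw [Real.sqrt_le_left (by linarith)]
  nlinarith [norm_nonneg w]

theorem DF_l1 [NeZero n] {c : ℝ} (hc : 0 < c) : DF (fun u : E n => c * l1 u) = Real.sqrt n := by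
  have hN : IsN (fun u : E n => c * l1 u) := ⟨_, _, by positivity, nm_l1.scale hc⟩
  have hN1 : IsN (l1 : E n → ℝ) := ⟨_, _, one_pos, nm_l1⟩
  have h1 : DF (l1 : E n → ℝ) = Real.sqrt n := by
    apply le_antisymm
    · exact DF_le ⟨ContinuousLinearEquiv.refl ℝ _, fun u => ⟨norm_le_l1 u, l1_le u⟩⟩
    · exact le_csInf hN1.near fun _ hs => sqrt_le_DF_l1 hs
  apply le_antisymm
  · have := DF_le_mul hN1 hc (fun u => le_refl (c * l1 u)) (fun u => le_refl _)
    rw [div_self hc.ne', one_mul, h1] at this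
    exact this
  · have := DF_le_mul hN (h' := l1) (inv_pos.2 hc) (C := c⁻¹)
      (fun u => by rw [← mul_assoc, inv_mul_cancel₀ hc.ne', one_mul])
      (fun u => by rw [← mul_assoc, inv_mul_cancel₀ hc.ne', one_mul])
    rw [div_self (inv_ne_zero hc.ne'), one_mul, h1] at this
    exact this

end Pool.Agent.ProjBody
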