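import Pool.Agent.ProjBody.Sw

/-!
Support functions of centred convex bodies as norms, and the projection body operator on them.
-/

open MeasureTheory Module Set
open scoped Pointwise

namespace Pool.Agent.ProjBody
variable {n : ℕ}

/-- `h` is an even sublinear function with `a ‖u‖ ≤ h u ≤ b ‖u‖`. -/
structure Nm (a b : ℝ) (h : E n → ℝ) : Prop where
  add : ∀ u v, h (u + v) ≤ h u + h v
  smul : ∀ (c : ℝ) (u), h (c • u) = |c| * h u
  lo : ∀ u, a * ‖u‖ ≤ h u
  hi : ∀ u, h u ≤ b * ‖u‖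

/-- The body with support function `h`. -/
def Bd (h : E n → ℝ) : Set (E n) := {x | ∀ u, inner ℝ x u ≤ h u}

/-- The projection body operator on support functions. -/
noncomputable def P (h : E n → ℝ) : E n → ℝ := sw (Bd h)

variable {a b : ℝ} {h h' : E n → ℝ}

theorem Nm.zero (hh : Nm a b h) : h 0 = 0 := by
  have := hh.smul 0 0
  simpa using this

theorem Bd_closed (h : E n → ℝ) : IsClosed (Bd h) := by
  have : Bd h = ⋂ u, {x | inner ℝ x u ≤ h u} := by
    ext x; simp [Bd]
  rw [this]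
  exact isClosed_iInter fun u => isClosed_le (by fun_prop) continuous_const

theorem Bd_subset_ball (hb : 0 ≤ b) (hh : ∀ u, h u ≤ b * ‖u‖) : Bd h ⊆ Metric.closedBall 0 b := by
  intro x hx
  rw [Metric.mem_closedBall, dist_zero_right]
  have h1 := (hx x).trans (hh x)
  rw [real_inner_self_eq_norm_sq] at h1
  rcases eq_or_lt_of_le (norm_nonneg x) with h0 | h0
  · rw [← h0]; exact hb
  · nlinarith

theorem ball_subset_Bd (hh : ∀ u, a * ‖u‖ ≤ h u) : Metric.closedBall 0 a ⊆ Bd h := by
  intro x hx u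
  rw [Metric.mem_closedBall, dist_zero_right] at hx
  calc inner ℝ x u ≤ ‖x‖ * ‖u‖ := real_inner_le_norm _ _
    _ ≤ a * ‖u‖ := by gcongr
    _ ≤ h u := hh u

theorem Nm.b_nonneg [NeZero n] (ha : 0 < a) (hh : Nm a b h) : 0 < b := by
  let e : E n := EuclideanSpace.single 0 1
  have he : ‖e‖ = 1 := by simp [e]
  have h1 := (hh.lo e).trans (hh.hi e)
  rw [he] at h1
  linarith

theorem Bd_compact [NeZero n] (ha : 0 < a) (hh : Nm a b h) : IsCompact (Bd h) :=
  (isCompact_closedBall (0 : E n) b).of_isClosed_subset (Bd_closed h)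
    (Bd_subset_ball (hh.b_nonneg ha).le hh.hi)

theorem Bd_convex (h : E n → ℝ) : Convex ℝ (Bd h) := by
  intro x hx y hy p q hp hq hpq u
  rw [inner_add_left, real_inner_smul_left, real_inner_smul_left]
  calc p * inner ℝ x u + q * inner ℝ y u ≤ p * h u + q * h u := by
        gcongr
        · exact hx u
        · exact hy u
    _ = h u := by rw [← add_mul, hpq, one_mul]

theorem Bd_isConvexBody [NeZero n] (ha : 0 < a) (hh : Nm a b h) : IsConvexBody (Bd h) := by
  refine ⟨Bd_compact ha hh, Bd_convex h, 0, ?_⟩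
  rw [mem_interior]
  exact ⟨Metric.ball 0 a, Metric.ball_subset_closedBall.trans (ball_subset_Bd hh.lo),
    Metric.isOpen_ball, Metric.mem_ball_self ha⟩

theorem exists_support (ha : 0 < a) (hh : Nm a b h) (u : E n) :
    ∃ x ∈ Bd h, inner ℝ x u = h u := by
  have hpos : ∀ v, 0 ≤ h v := fun v => le_trans (by positivity) (hh.lo v)
  rcases eq_or_ne u 0 with rfl | hu
  · exact ⟨0, fun v => by rw [inner_zero_left]; exact hpos v, by rw [hh.zero]; simp⟩
  let f : E n →ₗ.[ℝ] ℝ := LinearPMap.mkSpanSingleton u (h u) hu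
  obtain ⟨g, hg1, hg2⟩ := exists_extension_of_le_sublinear f h
    (fun c hc x => by rw [hh.smul, abs_of_pos hc]) hh.add (by
      rintro ⟨x, hx⟩
      obtain ⟨c, rfl⟩ := Submodule.mem_span_singleton.1 hx
      have : f ⟨c • u, hx⟩ = c • h u := LinearPMap.mkSpanSingleton'_apply ..
      rw [this]
      show c • h u ≤ h (c • u)
      rw [hh.smul, smul_eq_mul]
      exact mul_le_mul_of_nonneg_right (le_abs_self c) (hpos u))
  let gc : E n →L[ℝ] ℝ := LinearMap.toContinuousLinearMap g
  refine ⟨(InnerProductSpace.toDual ℝ (E n)).symm gc, ?_, ?_⟩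
  · intro v
    rw [InnerProductSpace.toDual_symm_apply]
    exact hg2 v
  · rw [InnerProductSpace.toDual_symm_apply]
    show g u = h u
    have hmem : u ∈ f.domain := Submodule.mem_span_singleton_self u
    have h1 := hg1 ⟨u, hmem⟩
    rw [h1]
    exact LinearPMap.mkSpanSingleton_apply ..

theorem supportFn_Bd (ha : 0 < a) (hh : Nm a b h) (u : E n) : supportFn (Bd h) u = h u := by
  obtain ⟨x, hx, hxu⟩ := exists_support ha hh u
  apply IsGreatest.csSup_eq
  refine ⟨⟨x, hx, hxu⟩, ?_⟩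
  rintro _ ⟨y, hy, rfl⟩
  exact hy u

theorem Bd_mono (hle : ∀ u, h u ≤ h' u) : Bd h ⊆ Bd h' := fun _ hx u => (hx u).trans (hle u)

theorem Bd_scale {c : ℝ} (hc : 0 < c) (h : E n → ℝ) : Bd (fun u => c * h u) = c • Bd h := by
  ext x
  rw [mem_smul_set_iff_inv_smul_mem₀ hc.ne']
  constructor
  · intro hx u
    rw [real_inner_smul_left, inv_mul_le_iff₀ hc]
    exact hx u
  · intro hx u
    have := hx u
    rw [real_inner_smul_left, inv_mul_le_iff₀ hc] at this
    exact this

theorem Bd_ball : Bd (fun u : E n => ‖u‖) = Metric.closedBall 0 1 := by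
  apply Subset.antisymm
  · exact Bd_subset_ball zero_le_one (fun u => by rw [one_mul])
  · exact ball_subset_Bd (fun u => by rw [one_mul])

theorem P_mono [NeZero n] {a' b' : ℝ} (ha : 0 < a) (hh : Nm a b h) (ha' : 0 < a')
    (hh' : Nm a' b' h') (hle : ∀ u, h u ≤ h' u) (u : E n) : P h u ≤ P h' u :=
  sw_mono (Bd_compact ha hh) (Bd_convex h) (Bd_compact ha' hh') (Bd_convex h') (Bd_mono hle) u

theorem P_scale [NeZero n] (ha : 0 < a) (hh : Nm a b h) {c : ℝ} (hc : 0 < c) (u : E n) :
    P (fun u => c * h u) u = c ^ (n - 1) * P h u := by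
  unfold P
  rw [Bd_scale hc, sw_dilate (Bd_compact ha hh) (Bd_convex h) hc]

theorem nm_norm : Nm (1 : ℝ) 1 (fun u : E n => ‖u‖) where
  add := norm_add_le
  smul c u := by rw [norm_smul, Real.norm_eq_abs]
  lo u := by rw [one_mul]
  hi u := by rw [one_mul]

theorem Nm.scale (hh : Nm a b h) {c : ℝ} (hc : 0 < c) :
    Nm (c * a) (c * b) (fun u => c * h u) where
  add u v := by
    rw [← mul_add]
    exact mul_le_mul_of_nonneg_left (hh.add u v) hc.le
  smul t u := by rw [hh.smul]; ring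
  lo u := by rw [mul_assoc]; exact mul_le_mul_of_nonneg_left (hh.lo u) hc.le
  hi u := by rw [mul_assoc]; exact mul_le_mul_of_nonneg_left (hh.hi u) hc.le

/-- The constant `κ`: brightness of the unit ball. -/
noncomputable def kap (n : ℕ) [NeZero n] : ℝ := (exists_kap n).choose

theorem kap_pos (n : ℕ) [NeZero n] : 0 < kap n := (exists_kap n).choose_spec.1

theorem P_norm [NeZero n] (u : E n) : P (fun u : E n => ‖u‖) u = kap n * ‖u‖ := by
  unfold P
  rw [Bd_ball]
  exact (exists_kap n).choose_spec.2 u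

theorem P_Nm [NeZero n] (ha : 0 < a) (hh : Nm a b h) :
    Nm (kap n * a ^ (n - 1)) (kap n * b ^ (n - 1)) (P h) where
  add u v := sw_add_le (Bd_compact ha hh) (Bd_convex h) ha (ball_subset_Bd hh.lo) u v
  smul c u := sw_smul (Bd_compact ha hh) (Bd_convex h) c u
  lo u := by
    have h1 := P_mono (by positivity) (nm_norm.scale ha) ha hh (fun u => hh.lo u) u
    rw [P_scale one_pos nm_norm ha, P_norm] at h1
    linarith
  hi u := by
    have hb := hh.b_nonneg ha
    have h1 := P_mono ha hh (by positivity) (nm_norm.scale hb) (fun u => hh.hi u) u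
    rw [P_scale one_pos nm_norm hb, P_norm] at h1
    linarith

/-- `h` is a norm. -/
def IsN (h : E n → ℝ) : Prop := ∃ a b, 0 < a ∧ Nm a b h

theorem IsN.P [NeZero n] (hh : IsN h) : IsN (P h) := by
  obtain ⟨a, b, ha, hh⟩ := hh
  exact ⟨_, _, mul_pos (kap_pos n) (pow_pos ha _), P_Nm ha hh⟩

theorem IsN.Pit [NeZero n] (hh : IsN h) (m : ℕ) : IsN (ProjBody.P^[m] h) := by
  induction m with
  | zero => exact hh
  | succ m ih =>
    rw [Function.iterate_succ_apply']
    exact ih.P

theorem Nm.comp [NeZero n] (ha : 0 < a) (hh : Nm a b h) (T : E n ≃L[ℝ] E n) :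
    IsN (fun u => h (T u)) := by
  have hb := hh.b_nonneg ha
  have hT : ∀ u, ‖u‖ ≤ (‖(T.symm : E n →L[ℝ] E n)‖ + 1) * ‖T u‖ := by
    intro u
    have := (T.symm : E n →L[ℝ] E n).le_opNorm (T u)
    simp only [ContinuousLinearEquiv.coe_coe, ContinuousLinearEquiv.symm_apply_apply] at this
    nlinarith [norm_nonneg (T u)]
  have hpos : 0 < ‖(T.symm : E n →L[ℝ] E n)‖ + 1 := by positivity
  refine ⟨a / (‖(T.symm : E n →L[ℝ] E n)‖ + 1), b * ‖(T : E n →L[ℝ] E n)‖, by positivity, ?_⟩
  constructor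
  · intro u v; simp only [map_add]; exact hh.add _ _
  · intro c u; simp only [map_smul]; exact hh.smul _ _
  · intro u
    calc a / (‖(T.symm : E n →L[ℝ] E n)‖ + 1) * ‖u‖
        ≤ a / (‖(T.symm : E n →L[ℝ] E n)‖ + 1) * ((‖(T.symm : E n →L[ℝ] E n)‖ + 1) * ‖T u‖) := by
          gcongr; exact hT u
      _ = a * ‖T u‖ := by field_simp
      _ ≤ h (T u) := hh.lo _
  · intro u
    calc h (T u) ≤ b * ‖T u‖ := hh.hi _
      _ ≤ b * (‖(T : E n →L[ℝ] E n)‖ * ‖u‖) := by
          gcongr
          exact (T : E n →L[ℝ] E n).le_opNorm u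
      _ = _ := by ring

theorem IsN.comp [NeZero n] (hh : IsN h) (T : E n ≃L[ℝ] E n) : IsN (fun u => h (T u)) := by
  obtain ⟨a, b, ha, hh⟩ := hh
  exact hh.comp ha T

/-- The adjoint of a linear equivalence. -/
noncomputable def adj (T : E n ≃L[ℝ] E n) : E n ≃L[ℝ] E n :=
  ContinuousLinearEquiv.equivOfInverse (ContinuousLinearMap.adjoint (T : E n →L[ℝ] E n))
    (ContinuousLinearMap.adjoint (T.symm : E n →L[ℝ] E n))
    (by
      intro x
      apply ext_inner_right ℝ
      intro y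
      rw [ContinuousLinearMap.adjoint_inner_left, ContinuousLinearMap.adjoint_inner_left]
      simp)
    (by
      intro x
      apply ext_inner_right ℝ
      intro y
      rw [ContinuousLinearMap.adjoint_inner_left, ContinuousLinearMap.adjoint_inner_left]
      simp)

theorem adj_inner (T : E n ≃L[ℝ] E n) (x y : E n) :
    inner ℝ (adj T x) y = inner ℝ x (T y) :=
  ContinuousLinearMap.adjoint_inner_left (T : E n →L[ℝ] E n) y x

theorem adj_symm_inner (T : E n ≃L[ℝ] E n) (x y : E n) :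
    inner ℝ ((adj T).symm x) y = inner ℝ x (T.symm y) :=
  ContinuousLinearMap.adjoint_inner_left (T.symm : E n →L[ℝ] E n) y x

theorem adj_adj (T : E n ≃L[ℝ] E n) : adj (adj T) = T := by
  apply ContinuousLinearEquiv.ext
  funext x
  apply ext_inner_right ℝ
  intro y
  rw [adj_inner, real_inner_comm, adj_inner, real_inner_comm]

theorem Bd_comp (T : E n ≃L[ℝ] E n) (h : E n → ℝ) : Bd (fun u => h (T u)) = adj T '' Bd h := by
  ext x
  constructor
  · intro hx
    refine ⟨(adj T).symm x, ?_, by simp⟩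
    intro u
    rw [adj_symm_inner]
    have := hx (T.symm u)
    simpa using this
  · rintro ⟨y, hy, rfl⟩ u
    rw [adj_inner]
    exact hy (T u)

/-- Absolute value of the determinant. -/
noncomputable def dt (T : E n ≃L[ℝ] E n) : ℝ := |T.toLinearEquiv.toLinearMap.det|

theorem dt_pos (T : E n ≃L[ℝ] E n) : 0 < dt T := by
  unfold dt
  rw [abs_pos]
  exact (LinearEquiv.isUnit_det' T.toLinearEquiv).ne_zero

theorem P_comp (T : E n ≃L[ℝ] E n) (h : E n → ℝ) (u : E n) :
    P (fun v => h (T v)) u = dt (adj T) * P h ((adj T).symm u) := by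
  unfold P
  rw [Bd_comp]
  have := sw_image (adj T) (Bd h) ((adj T).symm u)
  rw [ContinuousLinearEquiv.apply_symm_apply] at this
  exact this

/-- Scaling by a positive constant as an equivalence. -/
noncomputable def scl (c : ℝ) (hc : c ≠ 0) : E n ≃L[ℝ] E n :=
  ContinuousLinearEquiv.smulLeft (Units.mk0 c hc)

theorem scl_apply (c : ℝ) (hc : c ≠ 0) (x : E n) : scl c hc x = c • x := rfl

theorem dt_scl_trans (c : ℝ) (hc : c ≠ 0) (T : E n ≃L[ℝ] E n) :
    dt (T.trans (scl c hc)) = |c| ^ n * dt T := by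
  unfold dt
  have : (T.trans (scl c hc)).toLinearEquiv.toLinearMap = c • T.toLinearEquiv.toLinearMap := by
    ext1 x; rfl
  rw [this, LinearMap.det_smul, abs_mul, abs_pow]
  simp

theorem dt_symm (T : E n ≃L[ℝ] E n) : dt T.symm = (dt T)⁻¹ := by
  unfold dt
  have h1 : T.toLinearEquiv.toLinearMap.det * T.symm.toLinearEquiv.toLinearMap.det = 1 := by
    rw [← LinearMap.det_comp]
    have : T.toLinearEquiv.toLinearMap ∘ₗ T.symm.toLinearEquiv.toLinearMap = LinearMap.id := by
      ext1 x; simp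
    rw [this, LinearMap.det_id]
  apply eq_inv_of_mul_eq_one_right
  rw [← abs_mul, h1, abs_one]

theorem exchange [NeZero n] (hn : 2 ≤ n) (T : E n ≃L[ℝ] E n) : ∃ S : E n ≃L[ℝ] E n,
    ∀ h : E n → ℝ, IsN h → (fun u => P h (T u)) = P (fun v => h (S v)) := by
  set l : ℝ := (dt T) ^ ((1 : ℝ) / ((n - 1 : ℕ) : ℝ)) with hl
  have hl0 : 0 < l := Real.rpow_pos_of_pos (dt_pos T) _
  have hn1 : n - 1 ≠ 0 := by omega
  have hln : l ^ (n - 1) = dt T := by
    rw [hl, one_div, Real.rpow_inv_natCast_pow (dt_pos T).le hn1]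
  refine ⟨adj (T.symm.trans (scl l hl0.ne')), ?_⟩
  intro h hh
  funext u
  rw [P_comp, adj_adj]
  have h1 : dt (T.symm.trans (scl l hl0.ne')) = l := by
    rw [dt_scl_trans, dt_symm, abs_of_pos hl0]
    have : l ^ n = l ^ (n - 1) * l := by
      rw [← pow_succ]
      congr 1
      omega
    rw [this, hln]
    field_simp [(dt_pos T).ne']
  have h2 : (T.symm.trans (scl l hl0.ne')).symm u = T (l⁻¹ • u) := by
    apply (T.symm.trans (scl l hl0.ne')).injective
    rw [ContinuousLinearEquiv.apply_symm_apply]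
    show u = l • T.symm (T (l⁻¹ • u))
    rw [ContinuousLinearEquiv.symm_apply_apply, smul_smul, mul_inv_cancel₀ hl0.ne', one_smul]
  obtain ⟨a, b, hP⟩ := hh.P
  rw [h1, h2, map_smul, hP.2.smul, abs_inv, abs_of_pos hl0]
  field_simp

theorem exchange_iter [NeZero n] (hn : 2 ≤ n) (m : ℕ) : ∀ T : E n ≃L[ℝ] E n,
    ∃ S : E n ≃L[ℝ] E n, ∀ h : E n → ℝ, IsN h →
      (fun u => (P^[m] h) (T u)) = P^[m] (fun v => h (S v)) := by
  induction m with
  | zero => intro T; exact ⟨T, fun h _ => rfl⟩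
  | succ m ih =>
    intro T
    obtain ⟨S₁, hS₁⟩ := exchange hn T
    obtain ⟨S₂, hS₂⟩ := ih S₁
    refine ⟨S₂, ?_⟩
    intro h hh
    rw [Function.iterate_succ_apply', Function.iterate_succ_apply', hS₁ _ (hh.Pit m), hS₂ h hh]

end Pool.Agent.ProjBody
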