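import Pool.Agent.ProjBody.Auer

/-!
Bounds for preimages of the projection body operator, and ultralimits.
-/

open MeasureTheory Module Set
open scoped Pointwise

namespace Pool.Agent.ProjBody
variable {n : ℕ} {a b : ℝ} {h h' : E n → ℝ}

theorem norm_le_of_adj {T : E n ≃L[ℝ] E n} {C : ℝ}
    (hT : ∀ v, ‖adj T v‖ ≤ C * ‖v‖) (u : E n) : ‖T u‖ ≤ C * ‖u‖ := by
  rcases eq_or_lt_of_le (norm_nonneg (T u)) with h0 | h0
  · have hu : T u = 0 := norm_eq_zero.1 h0.symm
    have hu0 : u = 0 := by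
      rw [← ContinuousLinearEquiv.symm_apply_apply T u, hu, map_zero]
    rw [hu0]; simp
  have h1 : ‖T u‖ ^ 2 ≤ (C * ‖T u‖) * ‖u‖ := by
    calc ‖T u‖ ^ 2 = inner ℝ (T u) (T u) := (real_inner_self_eq_norm_sq _).symm
      _ = inner ℝ (adj T (T u)) u := (adj_inner T (T u) u).symm
      _ ≤ ‖adj T (T u)‖ * ‖u‖ := real_inner_le_norm _ _
      _ ≤ (C * ‖T u‖) * ‖u‖ := by gcongr; exact hT _
  have h2 : ‖T u‖ * ‖T u‖ ≤ ‖T u‖ * (C * ‖u‖) := by nlinarith
  exact le_of_mul_le_mul_left h2 h0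

theorem norm_symm_le_of_adj {T : E n ≃L[ℝ] E n} {C : ℝ}
    (hT : ∀ v, ‖(adj T).symm v‖ ≤ C * ‖v‖) (w : E n) : ‖T.symm w‖ ≤ C * ‖w‖ := by
  rcases eq_or_lt_of_le (norm_nonneg (T.symm w)) with h0 | h0
  · have hu : T.symm w = 0 := norm_eq_zero.1 h0.symm
    have hu0 : w = 0 := by
      rw [← ContinuousLinearEquiv.apply_symm_apply T w, hu, map_zero]
    rw [hu0]; simp
  have h1 : ‖T.symm w‖ ^ 2 ≤ (C * ‖T.symm w‖) * ‖w‖ := by
    calc ‖T.symm w‖ ^ 2 = inner ℝ (T.symm w) (T.symm w) := (real_inner_self_eq_norm_sq _).symm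
      _ = inner ℝ ((adj T).symm (T.symm w)) w := (adj_symm_inner T (T.symm w) w).symm
      _ ≤ ‖(adj T).symm (T.symm w)‖ * ‖w‖ := real_inner_le_norm _ _
      _ ≤ (C * ‖T.symm w‖) * ‖w‖ := by gcongr; exact hT _
  have h2 : ‖T.symm w‖ * ‖T.symm w‖ ≤ ‖T.symm w‖ * (C * ‖w‖) := by nlinarith
  exact le_of_mul_le_mul_left h2 h0

theorem preimage_bounds [NeZero n] (hn : 2 ≤ n) {a b : ℝ} (ha : 0 < a) (hb : 0 < b) :
    ∃ a' b' : ℝ, 0 < a' ∧ ∀ h : E n → ℝ, IsN h → Nm a b (P h) → Nm a' b' h := by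
  have hk := kap_pos n
  have hnpos : (0 : ℝ) < n := by exact_mod_cast NeZero.pos n
  set k := kap n with hkdef
  set α : ℝ := (k / b) ^ n with hα
  set β : ℝ := (k * (n : ℝ) ^ (n - 1) / a) ^ n with hβ
  have hα0 : 0 < α := by positivity
  have hβ0 : 0 < β := by positivity
  set C : ℝ := max 1 β * b / k with hC
  set c : ℝ := min 1 α * a / (k * (n : ℝ) ^ (n - 1)) with hc
  have hmax : 0 < max 1 β := lt_of_lt_of_le one_pos (le_max_left _ _)
  have hmin : 0 < min 1 α := lt_min one_pos hα0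
  have hC0 : 0 < C := by positivity
  have hc0 : 0 < c := by positivity
  refine ⟨1 / C, n / c, by positivity, ?_⟩
  intro h hN hP
  obtain ⟨T, hT⟩ := near_auerbach hN
  have hg : Nm (1 : ℝ) n (fun u => h (T u)) := by
    obtain ⟨a0, b0, ha0, hh⟩ := hN
    constructor
    · intro u v; simp only [map_add]; exact hh.add _ _
    · intro c u; simp only [map_smul]; exact hh.smul _ _
    · intro u; rw [one_mul]; exact (hT u).1
    · intro u; exact (hT u).2
  have hPg := P_Nm one_pos hg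
  rw [one_pow, mul_one] at hPg
  set d := dt (adj T) with hd
  have hd0 : 0 < d := dt_pos _
  have hrel : ∀ v, P (fun u => h (T u)) (adj T v) = d * P h v := by
    intro v
    rw [P_comp, ContinuousLinearEquiv.symm_apply_apply]
  have h1 : ∀ v, k * ‖adj T v‖ ≤ d * (b * ‖v‖) := by
    intro v
    refine (hPg.lo (adj T v)).trans ?_
    rw [hrel]
    gcongr
    exact hP.hi v
  have h2 : ∀ v, d * (a * ‖v‖) ≤ k * (n : ℝ) ^ (n - 1) * ‖adj T v‖ := by
    intro v
    refine le_trans ?_ (hPg.hi (adj T v))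
    rw [hrel]
    gcongr
    exact hP.lo v
  -- bounds on the determinant
  have h3 : d ≤ (d * b / k) ^ n := by
    apply dt_le _ (by positivity)
    intro v
    have := h1 v
    rw [div_mul_eq_mul_div, le_div_iff₀ hk]
    linarith
  have h4 : d⁻¹ ≤ (k * (n : ℝ) ^ (n - 1) / (d * a)) ^ n := by
    rw [hd, ← dt_symm]
    apply dt_le _ (by positivity)
    intro v
    have := h2 ((adj T).symm v)
    rw [ContinuousLinearEquiv.apply_symm_apply] at this
    rw [div_mul_eq_mul_div, le_div_iff₀ (by positivity)]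
    linarith
  have hnn : d ^ n = d ^ (n - 1) * d := by
    rw [← pow_succ]
    congr 1
    omega
  have h5 : α ≤ d ^ (n - 1) := by
    have e1 : (d * b / k) ^ n = d ^ (n - 1) * d * (b / k) ^ n := by
      rw [← hnn, mul_div_assoc, mul_pow]
    rw [e1] at h3
    have e2 : 1 ≤ d ^ (n - 1) * (b / k) ^ n := by
      have : d * 1 ≤ d * (d ^ (n - 1) * (b / k) ^ n) := by linarith
      exact le_of_mul_le_mul_left this hd0
    have e3 : α * (b / k) ^ n = 1 := by
      rw [hα, ← mul_pow]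
      field_simp
      simp
    have e4 : α * (b / k) ^ n ≤ d ^ (n - 1) * (b / k) ^ n := by rw [e3]; exact e2
    exact le_of_mul_le_mul_right e4 (by positivity)
  have h6 : d ^ (n - 1) ≤ β := by
    have e1 : (k * (n : ℝ) ^ (n - 1) / (d * a)) ^ n * d ^ n = β := by
      rw [hβ, ← mul_pow]
      congr 1
      field_simp
    have e2 : d⁻¹ * d ^ n ≤ β := by
      rw [← e1]
      gcongr
    rw [hnn] at e2
    have e3 : d⁻¹ * (d ^ (n - 1) * d) = d ^ (n - 1) := by field_simp
    rwa [e3] at e2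
  have hn1 : 1 ≤ n - 1 := by omega
  have h7 : min 1 α ≤ d := by
    rcases le_total 1 d with hd1 | hd1
    · exact (min_le_left _ _).trans hd1
    · refine (min_le_right _ _).trans (h5.trans ?_)
      calc d ^ (n - 1) ≤ d ^ 1 := pow_le_pow_of_le_one hd0.le hd1 hn1
        _ = d := pow_one d
  have h8 : d ≤ max 1 β := by
    rcases le_total 1 d with hd1 | hd1
    · refine le_trans ?_ (h6.trans (le_max_right _ _))
      calc d = d ^ 1 := (pow_one d).symm
        _ ≤ d ^ (n - 1) := pow_le_pow_right₀ hd1 hn1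
    · exact hd1.trans (le_max_left _ _)
  have h9 : ∀ v, ‖adj T v‖ ≤ C * ‖v‖ := by
    intro v
    have := h1 v
    rw [hC, div_mul_eq_mul_div, le_div_iff₀ hk]
    calc ‖adj T v‖ * k = k * ‖adj T v‖ := mul_comm _ _
      _ ≤ d * (b * ‖v‖) := this
      _ ≤ max 1 β * (b * ‖v‖) := by gcongr
      _ = _ := by ring
  have h10 : ∀ v, ‖(adj T).symm v‖ ≤ (1 / c) * ‖v‖ := by
    intro v
    have := h2 ((adj T).symm v)
    rw [ContinuousLinearEquiv.apply_symm_apply] at this
    rw [one_div, ← div_eq_inv_mul, le_div_iff₀ hc0, hc, mul_div_assoc', div_le_iff₀ (by positivity)]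
    calc ‖(adj T).symm v‖ * (min 1 α * a) = min 1 α * (a * ‖(adj T).symm v‖) := by ring
      _ ≤ d * (a * ‖(adj T).symm v‖) := by gcongr
      _ ≤ _ := this
      _ = _ := by ring
  have h11 := norm_le_of_adj h9
  have h12 := norm_symm_le_of_adj h10
  obtain ⟨a0, b0, ha0, hh⟩ := hN
  refine ⟨hh.add, hh.smul, ?_, ?_⟩
  · intro w
    have e1 := (hT (T.symm w)).1
    rw [ContinuousLinearEquiv.apply_symm_apply] at e1
    have e2 := h11 (T.symm w)
    rw [ContinuousLinearEquiv.apply_symm_apply] at e2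
    rw [div_mul_eq_mul_div, one_mul, div_le_iff₀ hC0]
    nlinarith
  · intro w
    have e1 := (hT (T.symm w)).2
    rw [ContinuousLinearEquiv.apply_symm_apply] at e1
    calc h w ≤ n * ‖T.symm w‖ := e1
      _ ≤ n * (1 / c * ‖w‖) := by gcongr; exact h12 w
      _ = n / c * ‖w‖ := by ring

/-- Uniform closeness from pointwise convergence along a filter. -/
theorem unif_close [NeZero n] {ι : Type*} {l : Filter ι} {f : ι → E n → ℝ} {M : E n → ℝ}
    (ha : 0 < a) (hf : ∀ᶠ i in l, Nm a b (f i)) (hM : Nm a b M)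
    (hlim : ∀ u, Filter.Tendsto (fun i => f i u) l (nhds (M u))) {δ : ℝ} (hδ : 0 < δ) :
    ∀ᶠ i in l, ∀ u, (1 - δ) * M u ≤ f i u ∧ f i u ≤ (1 + δ) * M u := by
  have hb := hM.b_nonneg ha
  set η : ℝ := δ * a / (1 + 2 * b) with hη
  have hη0 : 0 < η := by positivity
  have hcomp : IsCompact (Metric.sphere (0 : E n) 1) := isCompact_sphere _ _
  obtain ⟨t, ht, hcov⟩ := hcomp.elim_nhds_subcover (fun x => Metric.ball x η)
    (fun x _ => Metric.ball_mem_nhds x hη0)
  have h1 : ∀ᶠ i in l, ∀ x ∈ t, |f i x - M x| < η := by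
    rw [Filter.eventually_all_finset]
    intro x _
    have := (Metric.tendsto_nhds.1 (hlim x)) η hη0
    simpa [Real.dist_eq] using this
  filter_upwards [h1, hf] with i h2 hfi
  have hsph : ∀ v, ‖v‖ = 1 → |f i v - M v| ≤ δ * M v := by
    intro v hv
    have hvs : v ∈ Metric.sphere (0 : E n) 1 := by simpa using hv
    obtain ⟨x, hxt, hxv⟩ := mem_iUnion₂.1 (hcov hvs)
    rw [Metric.mem_ball, dist_eq_norm] at hxv
    have e1 := hfi.lip v x
    have e2 := hM.lip x v
    have e3 := h2 x hxt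
    rw [norm_sub_rev] at e2
    have e4 : |f i v - M v| ≤ b * ‖v - x‖ + η + b * ‖v - x‖ := by
      have : f i v - M v = (f i v - f i x) + (f i x - M x) + (M x - M v) := by ring
      rw [this]
      refine (abs_add_three _ _ _).trans ?_
      gcongr
    have e5 : |f i v - M v| ≤ (1 + 2 * b) * η := by nlinarith
    have e6 : (1 + 2 * b) * η = δ * a := by rw [hη]; field_simp
    rw [e6] at e5
    refine e5.trans ?_
    gcongr
    have := hM.lo v
    rwa [hv, mul_one] at this
  have hall : ∀ u, |f i u - M u| ≤ δ * M u := by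
    intro u
    rcases eq_or_ne u 0 with rfl | hu
    · rw [hfi.zero, hM.zero]; simp
    have hu' : ‖u‖ ≠ 0 := norm_ne_zero_iff.2 hu
    have hup : 0 < ‖u‖ := norm_pos_iff.2 hu
    have hv1 : ‖‖u‖⁻¹ • u‖ = 1 := by
      rw [norm_smul, norm_inv, norm_norm, inv_mul_cancel₀ hu']
    have := hsph _ hv1
    rw [hfi.smul, hM.smul, abs_of_pos (inv_pos.2 hup), ← mul_sub, abs_mul,
      abs_of_pos (inv_pos.2 hup)] at this
    have e : ‖u‖⁻¹ * |f i u - M u| ≤ ‖u‖⁻¹ * (δ * M u) := by linarith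
    exact le_of_mul_le_mul_left e (inv_pos.2 hup)
  intro u
  have := abs_le.1 (hall u)
  constructor <;> linarith

/-- Limits of norms with uniform bounds. -/
theorem Nm.lim {ι : Type*} {l : Filter ι} [l.NeBot] {f : ι → E n → ℝ} {M : E n → ℝ}
    (hf : ∀ᶠ i in l, Nm a b (f i))
    (hlim : ∀ u, Filter.Tendsto (fun i => f i u) l (nhds (M u))) : Nm a b M where
  add u v := by
    apply le_of_tendsto_of_tendsto (hlim (u + v)) ((hlim u).add (hlim v))
    filter_upwards [hf] with i hi using hi.add u v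
  smul c u := by
    apply tendsto_nhds_unique (hlim (c • u))
    apply ((hlim u).const_mul |c|).congr'
    filter_upwards [hf] with i hi using (hi.smul c u).symm
  lo u := by
    apply ge_of_tendsto (hlim u)
    filter_upwards [hf] with i hi using hi.lo u
  hi u := by
    apply le_of_tendsto (hlim u)
    filter_upwards [hf] with i hi using hi.hi u

/-- Continuity of the operator `P` under pointwise limits. -/
theorem P_lim [NeZero n] {ι : Type*} {l : Filter ι} [l.NeBot] {f : ι → E n → ℝ} {M : E n → ℝ}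
    (ha : 0 < a) (hf : ∀ᶠ i in l, Nm a b (f i))
    (hlim : ∀ u, Filter.Tendsto (fun i => f i u) l (nhds (M u))) (u : E n) :
    Filter.Tendsto (fun i => P (f i) u) l (nhds (P M u)) := by
  have hM := Nm.lim hf hlim
  have hPM : 0 ≤ P M u := by
    have := (P_Nm ha hM).lo u
    have hk := kap_pos n
    exact le_trans (by positivity) this
  rw [Metric.tendsto_nhds]
  intro ε hε
  -- choose δ
  have hcont : Continuous (fun δ : ℝ => (1 + δ) ^ (n - 1) * P M u) := by fun_prop
  have hcont' : Continuous (fun δ : ℝ => (1 - δ) ^ (n - 1) * P M u) := by fun_prop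
  have t1 := hcont.tendsto 0
  have t2 := hcont'.tendsto 0
  simp only [add_zero, sub_zero, one_pow, one_mul] at t1 t2
  have e1 : ∀ᶠ δ : ℝ in nhdsWithin 0 (Ioi 0), (1 + δ) ^ (n - 1) * P M u < P M u + ε :=
    (t1.mono_left nhdsWithin_le_nhds).eventually_lt_const (by linarith)
  have e2 : ∀ᶠ δ : ℝ in nhdsWithin 0 (Ioi 0), P M u - ε < (1 - δ) ^ (n - 1) * P M u :=
    (t2.mono_left nhdsWithin_le_nhds).eventually_const_lt (by linarith)
  have e3 : ∀ᶠ δ : ℝ in nhdsWithin 0 (Ioi 0), δ < 1 :=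
    Filter.Eventually.filter_mono nhdsWithin_le_nhds (eventually_lt_nhds one_pos)
  obtain ⟨δ, hδ1, hδ2, hδ3, hδ0⟩ := (e1.and (e2.and (e3.and self_mem_nhdsWithin))).exists
  have hδ0' : 0 < δ := hδ0
  filter_upwards [unif_close ha hf hM hlim hδ0', hf] with i hi hfi
  have u1 : P (fun v => (1 - δ) * M v) u ≤ P (f i) u :=
    P_mono (by nlinarith) (hM.scale (by linarith)) ha hfi (fun v => (hi v).1) u
  have u2 : P (f i) u ≤ P (fun v => (1 + δ) * M v) u :=
    P_mono ha hfi (by positivity) (hM.scale (by linarith)) (fun v => (hi v).2) u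
  rw [P_scale ha hM (by linarith)] at u1 u2
  rw [Real.dist_eq, abs_lt]
  constructor <;> linarith

end Pool.Agent.ProjBody
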