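import Pool.Agent.ProjBody.Sweep

/-!
The functional `sw K u = vol (K + [0,u]) - vol K` and its properties.
-/

open MeasureTheory Module Set
open scoped Pointwise

namespace Pool.Agent.ProjBody
variable {n : ℕ}

/-- `vol (K + [0,u]) - vol K`. -/
noncomputable def sw (K : Set (E n)) (u : E n) : ℝ :=
  (volume (K + segment ℝ 0 u)).toReal - (volume K).toReal

/-- Brightness through the volume on the subspace orthogonal to `u`. -/
noncomputable def br (K : Set (E n)) (u : E n) : ℝ :=
  ((volume : Measure (ℝ ∙ u)ᗮ) ((ℝ ∙ u)ᗮ.orthogonalProjectionOnto '' K)).toReal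

theorem brightness_eq_br (K : Set (E n)) {v : E n} (hv : ‖v‖ = 1) : brightness K v = br K v := by
  have h1 : projHyper v '' K = Subtype.val '' ((ℝ ∙ v)ᗮ.orthogonalProjectionOnto '' K) := by
    rw [← image_comp]
    apply image_congr
    intro x _
    have h2 := (ℝ ∙ v).starProjection_add_starProjection_orthogonal x
    rw [Submodule.starProjection_unit_singleton ℝ hv x] at h2
    show x - (inner ℝ x v : ℝ) • v = (ℝ ∙ v)ᗮ.starProjection x
    rw [real_inner_comm, sub_eq_iff_eq_add']
    exact h2.symm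
  have hv0 : v ≠ 0 := by rintro rfl; simp at hv
  have h3 : n - 1 = finrank ℝ (ℝ ∙ v)ᗮ := by
    have e1 := (ℝ ∙ v).finrank_add_finrank_orthogonal
    rw [finrank_span_singleton hv0, finrank_euclideanSpace_fin] at e1
    omega
  unfold brightness br
  rw [h1, isometry_subtype_coe.euclideanHausdorffMeasure_image, h3,
    InnerProductSpace.euclideanHausdorffMeasure_eq_volume]

theorem isCompact_seg (u : E n) : IsCompact (segment ℝ (0 : E n) u) := by
  rw [segment_eq_image]
  exact isCompact_Icc.image (by fun_prop)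

theorem br_congr {K : Set (E n)} {u v : E n} (h : (ℝ ∙ u) = (ℝ ∙ v)) :
    br K u = br K v := by
  unfold br
  have : ∀ W W' : Submodule ℝ (E n), W = W' →
      volume (Wᗮ.orthogonalProjectionOnto '' K) = volume (W'ᗮ.orthogonalProjectionOnto '' K) := by
    rintro W _ rfl
    rfl
  rw [this _ _ h]

theorem br_smul {K : Set (E n)} {u : E n} {c : ℝ} (hc : c ≠ 0) :
    br K (c • u) = br K u :=
  br_congr (Submodule.span_singleton_smul_eq (IsUnit.mk0 c hc) u)

theorem sw_eq {K : Set (E n)} (hK : IsCompact K) (hc : Convex ℝ K) (u : E n) :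
    sw K u = ‖u‖ * br K u := by
  rcases eq_or_ne u 0 with rfl | hu
  · simp [sw]
  have hu' : ‖u‖ ≠ 0 := norm_ne_zero_iff.2 hu
  set v := ‖u‖⁻¹ • u with hv
  have hv1 : ‖v‖ = 1 := by
    rw [hv, norm_smul, norm_inv, norm_norm, inv_mul_cancel₀ hu']
  have huv : ‖u‖ • v = u := by rw [hv, smul_smul, mul_inv_cancel₀ hu', one_smul]
  have h := volume_add_segment v hv1 hK hc (norm_nonneg u)
  rw [huv] at h
  have hb : br K u = br K v := by
    rw [hv, br_smul (inv_ne_zero hu')]
  have hPc : IsCompact ((ℝ ∙ v)ᗮ.orthogonalProjectionOnto '' K) := hK.image (by fun_prop)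
  have hfin : volume ((ℝ ∙ v)ᗮ.orthogonalProjectionOnto '' K) ≠ ⊤ := hPc.measure_lt_top.ne
  unfold sw
  rw [h, hb, ENNReal.toReal_add hK.measure_lt_top.ne
    (ENNReal.mul_ne_top ENNReal.ofReal_ne_top hfin), ENNReal.toReal_mul,
    ENNReal.toReal_ofReal (norm_nonneg _)]
  unfold br
  ring

theorem sw_nonneg {K : Set (E n)} (hK : IsCompact K) (hc : Convex ℝ K) (u : E n) :
    0 ≤ sw K u := by
  rw [sw_eq hK hc]
  unfold br
  positivity

theorem sw_smul {K : Set (E n)} (hK : IsCompact K) (hc : Convex ℝ K) (c : ℝ) (u : E n) :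
    sw K (c • u) = |c| * sw K u := by
  rcases eq_or_ne c 0 with rfl | h0
  · simp [sw]
  rw [sw_eq hK hc, sw_eq hK hc, br_smul h0, norm_smul, Real.norm_eq_abs]
  ring

theorem sw_mono {K K' : Set (E n)} (hK : IsCompact K) (hc : Convex ℝ K) (hK' : IsCompact K')
    (hc' : Convex ℝ K') (h : K ⊆ K') (u : E n) : sw K u ≤ sw K' u := by
  rw [sw_eq hK hc, sw_eq hK' hc']
  apply mul_le_mul_of_nonneg_left _ (norm_nonneg u)
  unfold br
  apply ENNReal.toReal_mono
  · exact (hK'.image (by fun_prop)).measure_lt_top.ne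
  · exact measure_mono (image_mono h)

theorem sw_image (T : E n ≃L[ℝ] E n) (K : Set (E n)) (u : E n) :
    sw (T '' K) (T u) = |T.toLinearEquiv.toLinearMap.det| * sw K u := by
  have h1 : T '' K + segment ℝ 0 (T u) = T '' (K + segment ℝ 0 u) := by
    rw [image_add]
    congr 1
    have := image_segment ℝ (T.toLinearEquiv.toLinearMap.toAffineMap) 0 u
    simpa using this.symm
  have h2 : ∀ S : Set (E n), (volume (T '' S)).toReal =
      |T.toLinearEquiv.toLinearMap.det| * (volume S).toReal := by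
    intro S
    have := Measure.addHaar_image_linearMap (volume : Measure (E n))
      T.toLinearEquiv.toLinearMap S
    have h3 : (T.toLinearEquiv.toLinearMap : E n → E n) '' S = T '' S := rfl
    rw [h3] at this
    rw [this, ENNReal.toReal_mul, ENNReal.toReal_ofReal (abs_nonneg _)]
  unfold sw
  rw [h1, h2, h2]
  ring

theorem sw_isom (T : E n ≃ₗᵢ[ℝ] E n) (K : Set (E n)) (u : E n) :
    sw (T '' K) (T u) = sw K u := by
  have h1 : T '' K + segment ℝ 0 (T u) = T '' (K + segment ℝ 0 u) := by
    rw [image_add]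
    congr 1
    have := image_segment ℝ (T.toLinearEquiv.toLinearMap.toAffineMap) 0 u
    simpa using this.symm
  have h2 : ∀ S : Set (E n), (volume (T '' S)) = volume S := by
    intro S
    have h3 : T '' S = T.symm.toHomeomorph.toMeasurableEquiv ⁻¹' S :=
      T.toLinearEquiv.toEquiv.image_eq_preimage_symm S
    rw [h3]
    exact T.symm.measurePreserving.measure_preimage_equiv S
  unfold sw
  rw [h1, h2, h2]

theorem sw_dilate [NeZero n] {K : Set (E n)} (hK : IsCompact K) (hc : Convex ℝ K) {c : ℝ}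
    (hc0 : 0 < c) (u : E n) :
    sw (c • K) u = c ^ (n - 1) * sw K u := by
  have h1 : c • K + segment ℝ 0 (c • u) = c • (K + segment ℝ 0 u) := by
    rw [smul_add]
    congr 1
    have := image_segment ℝ ((LinearMap.lsmul ℝ (E n) c).toAffineMap) 0 u
    simp only [LinearMap.coe_toAffineMap, map_zero, LinearMap.lsmul_apply] at this
    exact this.symm
  have h2 : ∀ S : Set (E n), (volume (c • S)).toReal = c ^ n * (volume S).toReal := by
    intro S
    rw [Measure.addHaar_smul, ENNReal.toReal_mul, ENNReal.toReal_ofReal (abs_nonneg _),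
      abs_of_pos (by positivity)]
    simp
  have h3 : sw (c • K) (c • u) = c ^ n * sw K u := by
    unfold sw
    rw [h1, h2, h2]
    ring
  have hK' : IsCompact (c • K) := hK.smul c
  have hc' : Convex ℝ (c • K) := hc.smul c
  rw [sw_smul hK' hc', abs_of_pos hc0] at h3
  have hn : n = (n - 1) + 1 := (Nat.succ_pred_eq_of_pos (NeZero.pos n)).symm
  have h4 : c ^ n = c * c ^ (n - 1) := by
    conv_lhs => rw [hn]
    ring
  rw [h4, mul_assoc] at h3
  exact mul_left_cancel₀ hc0.ne' h3

theorem add_seg_subset {K : Set (E n)} (hc : Convex ℝ K) {a : ℝ} (ha : 0 < a)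
    (hball : Metric.closedBall 0 a ⊆ K) (u : E n) :
    K + segment ℝ 0 u ⊆ (1 + ‖u‖ / a) • K := by
  rintro _ ⟨x, hx, z, hz, rfl⟩
  have hc0 : 0 ≤ ‖u‖ / a := by positivity
  have hz' : ‖z‖ ≤ ‖u‖ := by
    rw [segment_eq_image] at hz
    obtain ⟨t, ht, rfl⟩ := hz
    simp only [smul_zero, zero_add]
    rw [norm_smul, Real.norm_eq_abs, abs_of_nonneg ht.1]
    nlinarith [ht.2, norm_nonneg u]
  rcases eq_or_lt_of_le hc0 with h0 | h0
  · have hu0 : ‖u‖ = 0 := by
      rcases div_eq_zero_iff.1 h0.symm with h | h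
      · exact h
      · exact absurd h ha.ne'
    have : z = 0 := norm_le_zero_iff.1 (by rw [hu0] at hz'; exact hz')
    rw [← h0, this]
    simpa using hx
  · set c := ‖u‖ / a
    have hzK : c⁻¹ • z ∈ K := by
      apply hball
      rw [Metric.mem_closedBall, dist_zero_right, norm_smul, norm_inv, Real.norm_eq_abs,
        abs_of_pos h0, inv_mul_le_iff₀ h0]
      calc ‖z‖ ≤ ‖u‖ := hz'
        _ = c * a := by rw [div_mul_cancel₀ _ ha.ne']
    refine ⟨(1 / (1 + c)) • x + (c / (1 + c)) • (c⁻¹ • z), ?_, ?_⟩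
    · apply hc hx hzK (by positivity) (by positivity)
      field_simp
    · show (1 + c) • ((1 / (1 + c)) • x + (c / (1 + c)) • (c⁻¹ • z)) = x + z
      rw [smul_add, smul_smul, smul_smul, smul_smul]
      have h1 : (1 + c) * (1 / (1 + c)) = 1 := by field_simp
      have h2 : (1 + c) * (c / (1 + c)) * c⁻¹ = 1 := by field_simp
      rw [h1, h2, one_smul, one_smul]

theorem sw_add_le [NeZero n] {K : Set (E n)} (hK : IsCompact K) (hc : Convex ℝ K) {a : ℝ}
    (ha : 0 < a) (hball : Metric.closedBall 0 a ⊆ K) (u w : E n) :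
    sw K (u + w) ≤ sw K u + sw K w := by
  have key : ∀ ε : ℝ, 0 < ε → sw K (u + w) ≤ sw K u + (1 + ε * ‖u‖ / a) ^ (n - 1) * sw K w := by
    intro ε hε
    set K' := K + segment ℝ 0 (ε • u) with hK'
    have hKc : IsCompact K' := hK.add (isCompact_seg _)
    have hKv : Convex ℝ K' := hc.add (convex_segment _ _)
    have h1 : K + segment ℝ 0 (ε • (u + w)) ⊆ K' + segment ℝ 0 (ε • w) := by
      rintro _ ⟨x, hx, z, hz, rfl⟩
      rw [segment_eq_image] at hz
      obtain ⟨t, ht, rfl⟩ := hz
      refine ⟨x + t • (ε • u), ⟨x, hx, t • (ε • u), ?_, rfl⟩, t • (ε • w), ?_, ?_⟩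
      · rw [segment_eq_image]; exact ⟨t, ht, by simp⟩
      · rw [segment_eq_image]; exact ⟨t, ht, by simp⟩
      · simp only [smul_zero, zero_add, smul_add]
        abel
    have h2 : (volume (K + segment ℝ 0 (ε • (u + w)))).toReal ≤
        (volume (K' + segment ℝ 0 (ε • w))).toReal :=
      ENNReal.toReal_mono (hKc.add (isCompact_seg _)).measure_lt_top.ne (measure_mono h1)
    have h3 : sw K (ε • (u + w)) ≤ sw K (ε • u) + sw K' (ε • w) := by
      unfold sw
      rw [← hK']
      linarith
    rw [sw_smul hK hc, sw_smul hK hc, sw_smul hKc hKv, abs_of_pos hε] at h3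
    have h4 : sw K' w ≤ sw ((1 + ε * ‖u‖ / a) • K) w := by
      apply sw_mono hKc hKv (hK.smul _) (hc.smul _)
      have := add_seg_subset hc ha hball (ε • u)
      rw [norm_smul, Real.norm_eq_abs, abs_of_pos hε] at this
      exact this
    rw [sw_dilate hK hc (by positivity)] at h4
    have h5 : ε * sw K (u + w) ≤ ε * (sw K u + sw K' w) := by linarith
    have h6 := le_of_mul_le_mul_left h5 hε
    linarith
  have hlim : Filter.Tendsto (fun ε : ℝ => sw K u + (1 + ε * ‖u‖ / a) ^ (n - 1) * sw K w)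
      (nhdsWithin 0 (Ioi 0)) (nhds (sw K u + sw K w)) := by
    have hcont : Continuous (fun ε : ℝ => sw K u + (1 + ε * ‖u‖ / a) ^ (n - 1) * sw K w) := by
      fun_prop
    have := hcont.tendsto 0
    simp only [zero_mul, zero_div, add_zero, one_pow, one_mul] at this
    exact this.mono_left nhdsWithin_le_nhds
  apply ge_of_tendsto hlim
  filter_upwards [self_mem_nhdsWithin] with ε hε
  exact key ε hε

/-- The br constant of the unit ball. -/
theorem exists_kap (n : ℕ) [NeZero n] : ∃ κ : ℝ, 0 < κ ∧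
    ∀ u : E n, sw (Metric.closedBall 0 1) u = κ * ‖u‖ := by
  have hK : IsCompact (Metric.closedBall (0 : E n) 1) := isCompact_closedBall _ _
  have hc : Convex ℝ (Metric.closedBall (0 : E n) 1) := convex_closedBall _ _
  let e : E n := EuclideanSpace.single 0 1
  have he : ‖e‖ = 1 := by simp [e]
  refine ⟨sw (Metric.closedBall 0 1) e, ?_, ?_⟩
  · rw [sw_eq hK hc, he, one_mul]
    unfold br
    apply ENNReal.toReal_pos
    · apply ne_of_gt
      have h1 : Metric.closedBall (0 : (ℝ ∙ e)ᗮ) 1 ⊆
          (ℝ ∙ e)ᗮ.orthogonalProjectionOnto '' Metric.closedBall (0 : E n) 1 := by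
        intro w hw
        refine ⟨w, ?_, Submodule.orthogonalProjectionOnto_mem_subspace_eq_self w⟩
        simpa using hw
      exact (Metric.measure_closedBall_pos volume 0 one_pos).trans_le (measure_mono h1)
    · exact (hK.image (by fun_prop)).measure_lt_top.ne
  · intro u
    rcases eq_or_ne u 0 with rfl | hu
    · simp [sw]
    have hu' : ‖u‖ ≠ 0 := norm_ne_zero_iff.2 hu
    set v := ‖u‖⁻¹ • u with hv
    have hv1 : ‖v‖ = 1 := by
      rw [hv, norm_smul, norm_inv, norm_norm, inv_mul_cancel₀ hu']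
    have huv : ‖u‖ • v = u := by rw [hv, smul_smul, mul_inv_cancel₀ hu', one_smul]
    let R := (ℝ ∙ (e - v))ᗮ.reflection
    have hR : R e = v := Submodule.reflection_sub (by rw [he, hv1])
    have h1 := sw_isom R (Metric.closedBall 0 1) e
    have h2 : R '' (Metric.closedBall (0 : E n) 1) = Metric.closedBall 0 1 := by
      rw [LinearIsometryEquiv.image_closedBall, map_zero]
    rw [h2, hR] at h1
    conv_lhs => rw [← huv]
    rw [sw_smul hK hc, h1, abs_of_nonneg (norm_nonneg u)]
    ring

end Pool.Agent.ProjBody
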