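import Pool.Agent.ProjBody.Defs

/-!
The exact formula: volume of `K + [0,u]` = volume of `K` + `‖u‖` times the volume of the
projection of `K` onto the hyperplane orthogonal to `u`.
-/

open MeasureTheory Module Set
open scoped Pointwise

namespace Pool.Agent.ProjBody
variable {n : ℕ}

theorem volume_add_Icc {S : Set ℝ} (hc : IsCompact S) (hv : Convex ℝ S) (hne : S.Nonempty)
    {t : ℝ} (ht : 0 ≤ t) : volume (S + Icc 0 t) = volume S + ENNReal.ofReal t := by
  have h1 : S = Icc (sInf S) (sSup S) :=
    eq_Icc_of_connected_compact ⟨hne, hv.isPreconnected⟩ hc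
  set a := sInf S
  set b := sSup S
  have hab : a ≤ b := by
    rw [h1] at hne
    exact nonempty_Icc.1 hne
  rw [h1]
  have h2 : Icc a b + Icc 0 t = Icc a (b + t) := by
    apply Subset.antisymm
    · have := Icc_add_Icc_subset a b 0 t
      simpa using this
    · rintro x ⟨hx1, hx2⟩
      refine ⟨max a (x - t), ⟨le_max_left _ _, ?_⟩, x - max a (x - t), ⟨?_, ?_⟩, ?_⟩
      · exact max_le hab (by linarith)
      · rcases max_cases a (x - t) with h | h <;> linarith [h.1]
      · have := le_max_right a (x - t)
        linarith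
      · simp
  rw [h2, Real.volume_Icc, Real.volume_Icc, ← ENNReal.ofReal_add (by linarith) ht]
  congr 1
  ring

/-- The measurable equivalence `(s, y) ↦ s v + y`. -/
noncomputable def splitEquiv (v : E n) (hv : ‖v‖ = 1) : E n ≃ᵐ ℝ × (ℝ ∙ v)ᗮ :=
  ((ℝ ∙ v).orthogonalDecomposition.toHomeomorph.toMeasurableEquiv.trans
    (MeasurableEquiv.toLp 2 _).symm).trans
    (MeasurableEquiv.prodCongr
      (LinearIsometryEquiv.toSpanUnitSingleton (𝕜 := ℝ) v hv).symm.toHomeomorph.toMeasurableEquiv
      (MeasurableEquiv.refl _))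

theorem splitEquiv_measurePreserving (v : E n) (hv : ‖v‖ = 1) :
    MeasurePreserving (splitEquiv v hv) volume volume := by
  have h1 : MeasurePreserving (ℝ ∙ v).orthogonalDecomposition := 
    (ℝ ∙ v).orthogonalDecomposition.measurePreserving
  have h2 := WithLp.volume_preserving_ofLp (ℝ ∙ v) (ℝ ∙ v)ᗮ
  have h3 : MeasurePreserving 
      (Prod.map (LinearIsometryEquiv.toSpanUnitSingleton (𝕜 := ℝ) v hv).symm (id : (ℝ ∙ v)ᗮ → _)) 
      (volume.prod volume) (volume.prod volume) :=
    MeasurePreserving.prod 
      (LinearIsometryEquiv.toSpanUnitSingleton (𝕜 := ℝ) v hv).symm.measurePreserving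
      (MeasurePreserving.id _)
  exact h3.comp (h2.comp h1)

theorem proj_smul_add (v : E n) (s : ℝ) (y : (ℝ ∙ v)ᗮ) :
    (ℝ ∙ v)ᗮ.orthogonalProjectionOnto (s • v + (y : E n)) = y := by
  rw [map_add, Submodule.orthogonalProjectionOnto_mem_subspace_eq_self]
  have : (ℝ ∙ v)ᗮ.orthogonalProjectionOnto (s • v) = 0 := by
    apply Submodule.orthogonalProjectionOnto_orthogonal_apply_eq_zero
    exact Submodule.smul_mem _ _ (Submodule.mem_span_singleton_self v)
  rw [this, zero_add]

theorem splitEquiv_symm_apply (v : E n) (hv : ‖v‖ = 1) (s : ℝ) (y : (ℝ ∙ v)ᗮ) :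
    (splitEquiv v hv).symm (s, y) = s • v + y := by
  rw [MeasurableEquiv.symm_apply_eq]
  have h1 : (ℝ ∙ v).orthogonalProjectionOnto (s • v + (y : E n)) =
      LinearIsometryEquiv.toSpanUnitSingleton (𝕜 := ℝ) v hv s := by
    rw [map_add]
    have h2 : (ℝ ∙ v).orthogonalProjectionOnto (y : E n) = 0 :=
      Submodule.orthogonalProjectionOnto_apply_of_mem_orthogonal y.2
    have h3 : (ℝ ∙ v).orthogonalProjectionOnto (s • v) =
        ⟨s • v, Submodule.smul_mem _ _ (Submodule.mem_span_singleton_self v)⟩ :=
      Submodule.orthogonalProjectionOnto_mem_subspace_eq_self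
        (⟨s • v, Submodule.smul_mem _ _ (Submodule.mem_span_singleton_self v)⟩ : (ℝ ∙ v))
    rw [h2, h3, add_zero]
    rfl
  apply Prod.ext
  · show s = (LinearIsometryEquiv.toSpanUnitSingleton (𝕜 := ℝ) v hv).symm
      ((ℝ ∙ v).orthogonalDecomposition (s • v + (y : E n))).fst
    rw [Submodule.fst_orthogonalDecomposition_apply, h1, LinearIsometryEquiv.symm_apply_apply]
  · show y = ((ℝ ∙ v).orthogonalDecomposition (s • v + (y : E n))).snd
    rw [Submodule.snd_orthogonalDecomposition_apply, proj_smul_add]

/-- Fubini in direction `v`. -/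
theorem volume_eq_lintegral (v : E n) (hv : ‖v‖ = 1) {K : Set (E n)} (hK : MeasurableSet K) :
    volume K = ∫⁻ y : (ℝ ∙ v)ᗮ, volume {s : ℝ | s • v + (y : E n) ∈ K} := by
  rw [← (splitEquiv_measurePreserving v hv).symm.measure_preimage_equiv, 
    Measure.volume_eq_prod, Measure.prod_apply_symm ((splitEquiv v hv).symm.measurable hK)]
  apply lintegral_congr
  intro y
  have : (fun s : ℝ => (s, y)) ⁻¹' ((splitEquiv v hv).symm ⁻¹' K) =
      {s : ℝ | s • v + (y : E n) ∈ K} := by
    ext s
    show (splitEquiv v hv).symm (s, y) ∈ K ↔ s • v + (y : E n) ∈ K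
    rw [splitEquiv_symm_apply]
  rw [this]

theorem volume_add_segment (v : E n) (hv : ‖v‖ = 1) {K : Set (E n)} (hK : IsCompact K)
    (hc : Convex ℝ K) {t : ℝ} (ht : 0 ≤ t) :
    volume (K + segment ℝ 0 (t • v)) = volume K + ENNReal.ofReal t *
      volume ((ℝ ∙ v)ᗮ.orthogonalProjectionOnto '' K) := by
  have hseg : segment ℝ 0 (t • v) = (fun s : ℝ => s • v) '' Icc 0 t := by
    rw [segment_eq_image]
    ext x
    constructor
    · rintro ⟨s, hs, rfl⟩
      exact ⟨s * t, ⟨by nlinarith [hs.1], by nlinarith [hs.2]⟩, by simp [mul_smul]⟩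
    · rintro ⟨s, hs, rfl⟩
      rcases eq_or_lt_of_le ht with h0 | h0
      · refine ⟨0, by simp, ?_⟩
        have : s = 0 := le_antisymm (by rw [h0]; exact hs.2) hs.1
        simp [this]
      · refine ⟨s / t, ⟨by positivity [hs.1], ?_⟩, ?_⟩
        · rw [div_le_one h0]; exact hs.2
        · simp [smul_smul, div_mul_cancel₀ _ h0.ne']
  have hsc : IsCompact (segment ℝ (0 : E n) (t • v)) := by
    rw [hseg]; exact isCompact_Icc.image (by fun_prop)
  have hKs : MeasurableSet (K + segment ℝ 0 (t • v)) := (hK.add hsc).measurableSet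
  have hP : MeasurableSet ((ℝ ∙ v)ᗮ.orthogonalProjectionOnto '' K) :=
    (hK.image (by fun_prop)).measurableSet
  rw [volume_eq_lintegral v hv hKs, volume_eq_lintegral v hv hK.measurableSet]
  have hfib : ∀ y : (ℝ ∙ v)ᗮ, volume {s : ℝ | s • v + (y : E n) ∈ K + segment ℝ 0 (t • v)} =
      volume {s : ℝ | s • v + (y : E n) ∈ K} +
        ((ℝ ∙ v)ᗮ.orthogonalProjectionOnto '' K).indicator (fun _ => ENNReal.ofReal t) y := by
    intro y
    have hset : {s : ℝ | s • v + (y : E n) ∈ K + segment ℝ 0 (t • v)} =
        {s : ℝ | s • v + (y : E n) ∈ K} + Icc 0 t := by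
      ext s
      constructor
      · rintro ⟨x, hx, z, hz, hxz⟩
        rw [hseg] at hz
        obtain ⟨r, hr, rfl⟩ := hz
        refine ⟨s - r, ?_, r, hr, by simp⟩
        show (s - r) • v + (y : E n) ∈ K
        have : x = (s - r) • v + (y : E n) := by
          have h : x + r • v = s • v + (y : E n) := hxz
          rw [sub_smul]
          rw [← sub_eq_zero] at h ⊢
          rw [← h]; abel
        rwa [← this]
      · rintro ⟨a, ha, r, hr, hs⟩
        have hs' : a + r = s := hs
        refine ⟨a • v + y, ha, r • v, ?_, ?_⟩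
        · rw [hseg]; exact ⟨r, hr, rfl⟩
        · show a • v + (y : E n) + r • v = s • v + y
          rw [← hs', add_smul]; abel
    rw [hset]
    by_cases hy : y ∈ (ℝ ∙ v)ᗮ.orthogonalProjectionOnto '' K
    · rw [indicator_of_mem hy]
      apply volume_add_Icc
      · have hcomp : IsCompact ((fun x : E n => inner ℝ v x) '' K) :=
          hK.image (by fun_prop)
        have hcl : IsClosed {s : ℝ | s • v + (y : E n) ∈ K} :=
          hK.isClosed.preimage (f := fun s : ℝ => s • v + (y : E n)) (by fun_prop)
        refine hcomp.of_isClosed_subset hcl ?_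
        intro s hs
        refine ⟨_, hs, ?_⟩
        have hvy : inner ℝ v (y : E n) = 0 := by
          have := y.2
          rw [Submodule.mem_orthogonal_singleton_iff_inner_right] at this
          exact this
        show inner ℝ v (s • v + (y : E n)) = s
        rw [inner_add_right, hvy, inner_smul_right, real_inner_self_eq_norm_sq, hv]
        ring
      · intro a ha b hb p q hp hq hpq
        show (p • a + q • b) • v + (y : E n) ∈ K
        have := hc ha hb hp hq hpq
        convert this using 1
        simp only [smul_eq_mul, add_smul, mul_smul, smul_add]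
        have h2 : (y : E n) = p • (y : E n) + q • (y : E n) := by
          rw [← add_smul, hpq, one_smul]
        nth_rewrite 1 [h2]
        abel
      · obtain ⟨x, hx, hxy⟩ := hy
        refine ⟨inner ℝ v x, ?_⟩
        show (inner ℝ v x) • v + (y : E n) ∈ K
        have h1 := (ℝ ∙ v).starProjection_add_starProjection_orthogonal x
        rw [Submodule.starProjection_unit_singleton ℝ hv x] at h1
        have h2 : (ℝ ∙ v)ᗮ.starProjection x = (y : E n) := by
          rw [← hxy]; rfl
        rw [h2] at h1
        rw [h1]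
        exact hx
      · exact ht
    · rw [indicator_of_notMem hy]
      have hemp : {s : ℝ | s • v + (y : E n) ∈ K} = ∅ := by
        ext s
        simp only [mem_ofPred_eq, mem_empty_iff_false, iff_false]
        intro hs
        exact hy ⟨_, hs, proj_smul_add v s y⟩
      rw [hemp]
      simp
  simp_rw [hfib]
  rw [lintegral_add_right _ (measurable_const.indicator hP), lintegral_indicator_const hP]

end Pool.Agent.ProjBody
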